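import Mathlib

/-!
# Small integer combinations of spaced powers of a number that is not a root of unity
-/

open NumberField Finset

namespace Pool.Agent.Helper86.SSP

/-- Powers of an element of absolute value `> 1` at a place of a field, spaced widely, satisfy no
linear relation with small integer coefficients. -/
lemma indep_of_abv {F : Type*} [Field F] (w : AbsoluteValue F ℝ) (D : ℕ)
    (h1 : ∀ c : ℤ, w c ≤ |(c : ℝ)|) (h2 : ∀ c : ℤ, c ≠ 0 → 1 ≤ w c * |(c : ℝ)| ^ D)
    (β : F) (hβ : 1 < w β) :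
    ∃ κ : ℕ, 1 ≤ κ ∧ ∀ (C L : ℕ), κ * (C + 1) ≤ L → ∀ (m : ℕ) (c : ℕ → ℤ),
      (∀ j, |c j| ≤ (C : ℤ)) → ∑ j ∈ range m, (c j : F) * β ^ (j * L) = 0 → ∀ j < m, c j = 0 := by
  obtain ⟨κ₀, hκ₀⟩ := pow_unbounded_of_one_lt ((2 : ℝ) ^ (D + 1)) hβ
  refine ⟨κ₀ + 1, by omega, fun C L hL m c hc => ?_⟩
  have hκ : (2 : ℝ) ^ (D + 1) ≤ w β ^ (κ₀ + 1) :=
    hκ₀.le.trans (pow_le_pow_right₀ hβ.le (by omega))
  have hB : (C : ℝ) ^ (D + 1) + 1 ≤ w β ^ L := by
    have e1 : ((C : ℝ) + 1) ^ (D + 1) ≤ w β ^ L := by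
      calc ((C : ℝ) + 1) ^ (D + 1) ≤ ((2 : ℝ) ^ (C + 1)) ^ (D + 1) := by
            refine pow_le_pow_left₀ (by positivity) ?_ _
            have : (C + 1 : ℕ) ≤ 2 ^ (C + 1) := (Nat.lt_two_pow_self).le
            exact_mod_cast this
        _ = ((2 : ℝ) ^ (D + 1)) ^ (C + 1) := by rw [← pow_mul, ← pow_mul, mul_comm]
        _ ≤ (w β ^ (κ₀ + 1)) ^ (C + 1) := pow_le_pow_left₀ (by positivity) hκ _
        _ = w β ^ ((κ₀ + 1) * (C + 1)) := by rw [← pow_mul]
        _ ≤ w β ^ L := pow_le_pow_right₀ hβ.le hL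
    have e2 : (C : ℝ) ^ (D + 1) + 1 ≤ ((C : ℝ) + 1) ^ (D + 1) := by
      have := pow_add_pow_le (x := (C : ℝ)) (y := 1) (by positivity) (by norm_num)
        (n := D + 1) (by omega)
      simpa using this
    exact e2.trans e1
  induction m with
  | zero => intro _ j hj; omega
  | succ m ih =>
    intro hs
    have hm : c m = 0 := by
      by_contra hne
      rw [sum_range_succ] at hs
      have e1 : (c m : F) * β ^ (m * L) = -∑ j ∈ range m, (c j : F) * β ^ (j * L) := by
        linear_combination hs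
      have e2 : w (c m) * (w β ^ L) ^ m ≤ (C : ℝ) * ∑ j ∈ range m, (w β ^ L) ^ j := by
        have : w ((c m : F) * β ^ (m * L)) = w (c m) * (w β ^ L) ^ m := by
          rw [map_mul, map_pow, mul_comm m L, pow_mul]
        rw [← this, e1, map_neg_eq_map]
        refine (w.sum_le _ _).trans ?_
        rw [mul_sum]
        refine sum_le_sum fun j _ => ?_
        rw [map_mul, map_pow, mul_comm j L, pow_mul]
        refine mul_le_mul_of_nonneg_right ?_ (by positivity)
        refine (h1 _).trans ?_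
        exact_mod_cast hc j
      have hq : 0 < w β ^ L - 1 ∨ C = 0 := by
        by_cases hC : C = 0
        · exact Or.inr hC
        · left
          have : (0 : ℝ) < (C : ℝ) ^ (D + 1) := by positivity
          linarith
      have hC1 : 1 ≤ C := by
        have := hc m
        have h3 : 1 ≤ |c m| := Int.one_le_abs hne
        omega
      have hq' : 0 < w β ^ L - 1 := by
        rcases hq with h | h
        · exact h
        · omega
      have e3 : (∑ j ∈ range m, (w β ^ L) ^ j) * (w β ^ L - 1) = (w β ^ L) ^ m - 1 :=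
        geom_sum_mul _ _
      have e4 := h2 (c m) hne
      have e5 : |(c m : ℝ)| ^ D ≤ (C : ℝ) ^ D := by
        refine pow_le_pow_left₀ (abs_nonneg _) ?_ _
        exact_mod_cast hc m
      have hw : 0 ≤ w (c m) := w.nonneg _
      have e6 : 1 ≤ w (c m) * (C : ℝ) ^ D := e4.trans (mul_le_mul_of_nonneg_left e5 hw)
      have hpos : 0 < (w β ^ L) ^ m := by
        have : 0 < w β := by linarith
        positivity
      -- (w β ^ L) ^ m ≤ w c_m C^D (wβ^L)^m ≤ C^(D+1) * geom
      have e7 : (w β ^ L) ^ m ≤ (C : ℝ) ^ (D + 1) * ∑ j ∈ range m, (w β ^ L) ^ j := by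
        calc (w β ^ L) ^ m ≤ (w (c m) * (C : ℝ) ^ D) * (w β ^ L) ^ m :=
              le_mul_of_one_le_left hpos.le e6
          _ = (w (c m) * (w β ^ L) ^ m) * (C : ℝ) ^ D := by ring
          _ ≤ ((C : ℝ) * ∑ j ∈ range m, (w β ^ L) ^ j) * (C : ℝ) ^ D :=
              mul_le_mul_of_nonneg_right e2 (by positivity)
          _ = (C : ℝ) ^ (D + 1) * ∑ j ∈ range m, (w β ^ L) ^ j := by ring
      have hS : 0 ≤ ∑ j ∈ range m, (w β ^ L) ^ j := by
        refine sum_nonneg fun j _ => ?_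
        have : 0 < w β := by linarith
        positivity
      have e8 : (C : ℝ) ^ (D + 1) * ∑ j ∈ range m, (w β ^ L) ^ j ≤
          (w β ^ L - 1) * ∑ j ∈ range m, (w β ^ L) ^ j :=
        mul_le_mul_of_nonneg_right (by linarith) hS
      have e9 : (w β ^ L - 1) * ∑ j ∈ range m, (w β ^ L) ^ j = (w β ^ L) ^ m - 1 := by
        rw [mul_comm]; exact e3
      linarith
    have hs' : ∑ j ∈ range m, (c j : F) * β ^ (j * L) = 0 := by
      rw [sum_range_succ, hm] at hs
      simpa using hs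
    intro j hj
    rcases Nat.lt_succ_iff_lt_or_eq.1 hj with h | h
    · exact ih hs' j h
    · rw [h]; exact hm

variable {F : Type*} [Field F] [NumberField F]

/-- The complex places. -/
lemma indep_of_embedding (φ : F →+* ℂ) (β : F) (hβ : 1 < ‖φ β‖) :
    ∃ κ : ℕ, 1 ≤ κ ∧ ∀ (C L : ℕ), κ * (C + 1) ≤ L → ∀ (m : ℕ) (c : ℕ → ℤ),
      (∀ j, |c j| ≤ (C : ℤ)) → ∑ j ∈ range m, (c j : F) * β ^ (j * L) = 0 → ∀ j < m, c j = 0 := by
  let w : AbsoluteValue F ℝ :=
    { toFun := fun z => ‖φ z‖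
      map_mul' := fun a b => by simp
      nonneg' := fun a => norm_nonneg _
      eq_zero' := fun a => by simp
      add_le' := fun a b => by rw [map_add]; exact norm_add_le _ _ }
  refine indep_of_abv w 0 (fun c => ?_) (fun c hc => ?_) β hβ
  · show ‖φ (c : F)‖ ≤ _
    rw [map_intCast, Complex.norm_intCast]
  · show 1 ≤ ‖φ (c : F)‖ * _
    rw [map_intCast, Complex.norm_intCast, pow_zero, mul_one]
    exact_mod_cast Int.one_le_abs hc

/-- The finite places. -/
lemma indep_of_finite (v : IsDedekindDomain.HeightOneSpectrum (𝓞 F)) (β : F)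
    (hβ : 1 < v.valuation F β) :
    ∃ κ : ℕ, 1 ≤ κ ∧ ∀ (C L : ℕ), κ * (C + 1) ≤ L → ∀ (m : ℕ) (c : ℕ → ℤ),
      (∀ j, |c j| ≤ (C : ℤ)) → ∑ j ∈ range m, (c j : F) * β ^ (j * L) = 0 → ∀ j < m, c j = 0 := by
  refine indep_of_abv (NumberField.HeightOneSpectrum.adicAbv F v) (Module.finrank ℚ F)
    (fun c => ?_) (fun c hc => ?_) β ?_
  · by_cases hc : c = 0
    · simp [hc]
    · refine (NumberField.HeightOneSpectrum.adicAbv_intCast_le_one F v c).trans ?_
      exact_mod_cast Int.one_le_abs hc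
  · have hc' : (c : 𝓞 F) ≠ 0 := by exact_mod_cast hc
    have h1 := NumberField.HeightOneSpectrum.embedding_mul_absNorm F v hc'
    rw [NumberField.FinitePlace.norm_embedding] at h1
    have h2 : (algebraMap (𝓞 F) F) (c : 𝓞 F) = (c : F) := by simp
    rw [h2] at h1
    have h3 : Ideal.absNorm (v.maxPowDividing (Ideal.span {(c : 𝓞 F)})) ∣
        Ideal.absNorm (Ideal.span {(c : 𝓞 F)}) := by
      refine Ideal.absNorm_dvd_absNorm_of_le (Ideal.le_of_dvd ?_)
      have hI : (Ideal.span {(c : 𝓞 F)} : Ideal (𝓞 F)) ≠ 0 := by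
        rw [Ne, Ideal.zero_eq_bot, Ideal.span_singleton_eq_bot]
        exact hc'
      unfold IsDedekindDomain.HeightOneSpectrum.maxPowDividing
      rw [← Associates.mk_le_mk_iff_dvd, Associates.mk_pow]
      exact (Associates.prime_pow_dvd_iff_le (Associates.mk_ne_zero.2 hI)
        (Associates.irreducible_mk.2 v.irreducible)).2 le_rfl
    have h4 : Ideal.absNorm (Ideal.span {(c : 𝓞 F)}) = c.natAbs ^ Module.finrank ℚ F := by
      rw [Ideal.absNorm_span_singleton]
      have : (Algebra.norm ℤ) (c : 𝓞 F) = c ^ Module.finrank ℤ (𝓞 F) := by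
        have := Algebra.norm_algebraMap (S := 𝓞 F) c
        simpa using this
      rw [this, Int.natAbs_pow, NumberField.RingOfIntegers.rank]
    have h5 : 0 < c.natAbs ^ Module.finrank ℚ F := pow_pos (Int.natAbs_pos.2 hc) _
    have h6 : Ideal.absNorm (v.maxPowDividing (Ideal.span {(c : 𝓞 F)})) ≤
        c.natAbs ^ Module.finrank ℚ F := Nat.le_of_dvd h5 (h4 ▸ h3)
    have h7 : (Ideal.absNorm (v.maxPowDividing (Ideal.span {(c : 𝓞 F)})) : ℝ) ≤
        |(c : ℝ)| ^ Module.finrank ℚ F := by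
      have : ((c.natAbs : ℕ) : ℝ) = |(c : ℝ)| := by
        rw [Nat.cast_natAbs, Int.cast_abs]
      rw [← this]
      exact_mod_cast h6
    rw [← h1]
    exact mul_le_mul_of_nonneg_left h7 (AbsoluteValue.nonneg _ _)
  · rw [NumberField.HeightOneSpectrum.adicAbv_def]
    have := WithZeroMulInt.toNNReal_strictMono (NumberField.HeightOneSpectrum.one_lt_absNorm_nnreal v) hβ
    rw [map_one] at this
    exact_mod_cast this

/-- One of the places of a number field sees that `α` is not a root of unity. -/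
lemma exists_place (α : F) (h0 : α ≠ 0) (hα : ∀ k : ℕ, 0 < k → α ^ k ≠ 1) :
    ∃ β : F, (β = α ∨ β = α⁻¹) ∧ ((∃ v : IsDedekindDomain.HeightOneSpectrum (𝓞 F),
      1 < v.valuation F β) ∨ ∃ φ : F →+* ℂ, 1 < ‖φ β‖) := by
  by_contra! h
  have h1 := h α (Or.inl rfl)
  have h2 := IsDedekindDomain.HeightOneSpectrum.mem_integers_of_valuation_le_one F α h1.1
  obtain ⟨a, ha⟩ := h2
  have h3 : IsIntegral ℤ α := by rw [← ha]; exact a.isIntegral_coe
  obtain ⟨n, hn, h4⟩ := NumberField.Embeddings.pow_eq_one_of_norm_le_one F ℂ h0 h3 h1.2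
  exact hα n hn h4

/-- Widely spaced powers of a number that is not zero nor a root of unity satisfy no relation with
small integer coefficients. -/
theorem indep_of_not_root (α : F) (h0 : α ≠ 0) (hα : ∀ k : ℕ, 0 < k → α ^ k ≠ 1) :
    ∃ κ : ℕ, 1 ≤ κ ∧ ∀ (C L : ℕ), κ * (C + 1) ≤ L → ∀ (m : ℕ) (c : ℕ → ℤ),
      (∀ j, |c j| ≤ (C : ℤ)) → ∑ j ∈ range m, (c j : F) * α ^ (j * L) = 0 → ∀ j < m, c j = 0 := by
  obtain ⟨β, hβ, h⟩ := exists_place α h0 hα
  have key : ∃ κ : ℕ, 1 ≤ κ ∧ ∀ (C L : ℕ), κ * (C + 1) ≤ L → ∀ (m : ℕ) (c : ℕ → ℤ),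
      (∀ j, |c j| ≤ (C : ℤ)) → ∑ j ∈ range m, (c j : F) * β ^ (j * L) = 0 →
        ∀ j < m, c j = 0 := by
    rcases h with ⟨v, hv⟩ | ⟨φ, hφ⟩
    · exact indep_of_finite v β hv
    · exact indep_of_embedding φ β hφ
  rcases hβ with rfl | rfl
  · exact key
  · obtain ⟨κ, h1, h2⟩ := key
    refine ⟨κ, h1, fun C L hL m c hc hs j hj => ?_⟩
    have h3 : ∑ j ∈ range m, ((c (m - 1 - j) : ℤ) : F) * α⁻¹ ^ (j * L) = 0 := by
      have h4 : ∑ j ∈ range m, ((c (m - 1 - j) : ℤ) : F) * α⁻¹ ^ (j * L) =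
          (∑ j ∈ range m, ((c (m - 1 - j) : ℤ) : F) * α ^ ((m - 1 - j) * L)) *
            α⁻¹ ^ ((m - 1) * L) := by
        rw [sum_mul]
        refine sum_congr rfl fun j hj => ?_
        have hj' := mem_range.1 hj
        have h5 : (m - 1) * L = (m - 1 - j) * L + j * L := by
          rw [← Nat.add_mul]; congr 1; omega
        rw [h5, pow_add, mul_assoc, ← mul_assoc (α ^ _), ← mul_pow, mul_inv_cancel₀ h0, one_pow,
          one_mul]
      rw [h4, sum_range_reflect (fun j => (c j : F) * α ^ (j * L)) m, hs, zero_mul]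
    have h6 := h2 C L hL m (fun j => c (m - 1 - j)) (fun j => hc _) h3 (m - 1 - j) (by omega)
    have h7 : m - 1 - (m - 1 - j) = j := by omega
    simpa [h7] using h6

end Pool.Agent.Helper86.SSP
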