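import Mathlib
import Pool.Agent.Helper86.SSP.Place

/-!
# An automorphism that is not virtually unipotent has independent translates
-/

open Polynomial Finset

namespace Pool.Agent.Helper86.SSP

variable {M : Type*} [AddCommGroup M]

/-- The translates of `b` by widely spaced powers of `φ` satisfy no relation with small integer
coefficients. -/
def PropA (φ : Module.End ℤ M) (b : M) : Prop :=
  ∃ κ : ℕ, 1 ≤ κ ∧ ∀ (C L : ℕ), κ * (C + 1) ≤ L → ∀ (m : ℕ) (c : ℕ → ℤ),
    (∀ j, |c j| ≤ (C : ℤ)) → ∑ j ∈ range m, c j • (φ ^ (j * L)) b = 0 → ∀ j < m, c j = 0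

/-- The translates of `b` by the powers of `φ` satisfy only the relations whose coefficients are
divisible by a fixed prime number. -/
def PropB (φ : Module.End ℤ M) (b : M) : Prop :=
  ∃ p : ℕ, p.Prime ∧ ∀ (m : ℕ) (c : ℕ → ℤ),
    ∑ j ∈ range m, c j • (φ ^ j) b = 0 → ∀ j < m, (p : ℤ) ∣ c j

/-- The annihilator of an element. -/
noncomputable def ann (φ : Module.End ℤ M) (b : M) : Ideal ℤ[X] where
  carrier := {f | aeval φ f b = 0}
  add_mem' := fun {f g} hf hg => by
    simp only [Set.mem_ofPred_eq] at *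
    rw [map_add, LinearMap.add_apply, hf, hg, add_zero]
  zero_mem' := by simp
  smul_mem' := fun f g hg => by
    simp only [Set.mem_ofPred_eq] at *
    rw [smul_eq_mul, map_mul, Module.End.mul_apply, hg, map_zero]

lemma mem_ann {φ : Module.End ℤ M} {b : M} {f : ℤ[X]} : f ∈ ann φ b ↔ aeval φ f b = 0 := Iff.rfl

lemma mem_ann_ev {φ : Module.End ℤ M} {b : M} {f g : ℤ[X]} :
    f ∈ ann φ (aeval φ g b) ↔ f * g ∈ ann φ b := by
  rw [mem_ann, mem_ann, map_mul, Module.End.mul_apply]

lemma pow_sub_one_dvd (k k' l : ℕ) : ((X : ℤ[X]) ^ k - 1) ^ l ∣ (X ^ (k * k') - 1) ^ l :=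
  pow_dvd_pow_of_dvd (by rw [pow_mul]; exact sub_one_dvd_pow_sub_one _ _) l

/-- A prime annihilator. -/
lemma exists_prime_ann (φ : Module.End ℤ M) (m : M)
    (h : ∀ k l : ℕ, 0 < k → (((X : ℤ[X]) ^ k - 1) ^ l) ∉ ann φ m) :
    ∃ g : ℤ[X], (ann φ (aeval φ g m)).IsPrime ∧
      ∀ k : ℕ, 0 < k → ((X : ℤ[X]) ^ k - 1) ∉ ann φ (aeval φ g m) := by
  let S : Set (Ideal ℤ[X]) := {I | (∃ g : ℤ[X], I = ann φ (aeval φ g m)) ∧
    ∀ k l : ℕ, 0 < k → (((X : ℤ[X]) ^ k - 1) ^ l) ∉ I}
  have hS : S.Nonempty := ⟨ann φ m, ⟨1, by simp⟩, h⟩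
  obtain ⟨I, ⟨⟨g, rfl⟩, hI⟩, hmax⟩ :=
    (set_has_maximal_iff_noetherian (R := ℤ[X]) (M := ℤ[X])).2 inferInstance S hS
  refine ⟨g, ?_, fun k hk => by simpa using hI k 1 hk⟩
  refine ⟨fun htop => ?_, fun {f₁ f₂} h12 => ?_⟩
  · have := hI 1 0 one_pos
    rw [htop] at this
    exact this trivial
  · by_contra! hcon
    obtain ⟨h1, h2⟩ := hcon
    -- the annihilator of `f₁ g m` is bigger, hence tame
    set J := ann φ (aeval φ (f₁ * g) m) with hJ
    have hIJ : ann φ (aeval φ g m) ≤ J := by
      intro f hf
      rw [hJ, mem_ann_ev]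
      rw [mem_ann_ev] at hf
      have : f * (f₁ * g) = f₁ * (f * g) := by ring
      rw [this]
      exact Ideal.mul_mem_left _ _ hf
    have h2J : f₂ ∈ J := by
      rw [hJ, mem_ann_ev]
      rw [mem_ann_ev] at h12
      have : f₂ * (f₁ * g) = f₁ * f₂ * g := by ring
      rwa [this]
    have hlt : ann φ (aeval φ g m) < J := lt_of_le_of_ne hIJ fun heq => h2 (heq ▸ h2J)
    have hJS : J ∉ S := fun hJS => hmax J hJS hlt
    have : ∃ k l : ℕ, 0 < k ∧ (((X : ℤ[X]) ^ k - 1) ^ l) ∈ J := by
      by_contra! hc
      exact hJS ⟨⟨f₁ * g, rfl⟩, hc⟩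
    obtain ⟨k, l, hk, hkl⟩ := this
    -- consider the annihilator of `(X^k-1)^l g m`
    set w : ℤ[X] := (X ^ k - 1) ^ l with hw
    set J' := ann φ (aeval φ (w * g) m) with hJ'
    have hIJ' : ann φ (aeval φ g m) ≤ J' := by
      intro f hf
      rw [hJ', mem_ann_ev]
      rw [mem_ann_ev] at hf
      have : f * (w * g) = w * (f * g) := by ring
      rw [this]
      exact Ideal.mul_mem_left _ _ hf
    have hJ'S : J' ∈ S := by
      refine ⟨⟨w * g, rfl⟩, fun k' l' hk' hmem => ?_⟩
      rw [hJ', mem_ann_ev] at hmem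
      apply hI (k * k') (l + l') (by positivity)
      rw [mem_ann_ev]
      have e1 : (X ^ (k * k') - 1 : ℤ[X]) ^ (l + l') = (X ^ (k * k') - 1) ^ l *
        (X ^ (k * k') - 1) ^ l' := pow_add _ _ _
      obtain ⟨u, hu⟩ := pow_sub_one_dvd k k' l
      obtain ⟨v, hv⟩ := pow_sub_one_dvd k' k l'
      rw [mul_comm k' k] at hv
      rw [e1, hu, hv]
      have : (X ^ k - 1) ^ l * u * ((X ^ k' - 1) ^ l' * v) * g =
        (u * v) * ((X ^ k' - 1) ^ l' * (w * g)) := by rw [hw]; ring
      rw [this]
      exact Ideal.mul_mem_left _ _ hmem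
    have heq : ann φ (aeval φ g m) = J' := by
      by_contra hne
      exact hmax J' hJ'S (lt_of_le_of_ne hIJ' hne)
    apply h1
    rw [heq, hJ', mem_ann_ev]
    rw [hJ, mem_ann_ev] at hkl
    have : f₁ * (w * g) = w * (f₁ * g) := by ring
    rwa [this]

lemma aeval_sum (φ : Module.End ℤ M) (b : M) (m L : ℕ) (c : ℕ → ℤ) :
    aeval φ (∑ j ∈ range m, C (c j) * X ^ (j * L)) b =
      ∑ j ∈ range m, c j • (φ ^ (j * L)) b := by
  rw [map_sum, LinearMap.sum_apply]
  refine sum_congr rfl fun j _ => ?_
  rw [map_mul, map_pow, aeval_X, aeval_C, Module.End.mul_apply]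
  simp

/-- The two cases for a prime annihilator. -/
theorem prop_of_prime (φ : Module.End ℤ M) (hφ : Function.Injective φ) (b : M)
    (hP : (ann φ b).IsPrime) (hk : ∀ k : ℕ, 0 < k → ((X : ℤ[X]) ^ k - 1) ∉ ann φ b) :
    PropA φ b ∨ PropB φ b := by
  classical
  set P := ann φ b with hPdef
  have hX : (X : ℤ[X]) ∉ P := by
    intro h
    rw [hPdef, mem_ann, aeval_X] at h
    have : b = 0 := hφ (by rw [h, map_zero])
    apply hP.ne_top
    rw [Ideal.eq_top_iff_one, hPdef, mem_ann, this, map_zero]
  by_cases hint : ∃ n : ℤ, n ≠ 0 ∧ C n ∈ P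
  · right
    -- a prime number in `P`
    obtain ⟨n, hn0, hn⟩ := hint
    have hp : ∃ p : ℕ, p.Prime ∧ C (p : ℤ) ∈ P := by
      have key : ∀ s : ℕ, s ≠ 0 → C (s : ℤ) ∈ P → ∃ p : ℕ, p.Prime ∧ C (p : ℤ) ∈ P := by
        intro s
        induction s using Nat.recOnMul with
        | zero => intro h; exact absurd rfl h
        | one =>
          intro _ h
          exfalso
          apply hP.ne_top
          rw [Ideal.eq_top_iff_one]
          simpa using h
        | prime q hq => intro _ h; exact ⟨q, hq, h⟩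
        | mul a c iha ihc =>
          intro hac h
          rw [Nat.cast_mul, C_mul] at h
          have ha : a ≠ 0 := fun h => hac (by rw [h, Nat.zero_mul])
          have hc : c ≠ 0 := fun h => hac (by rw [h, Nat.mul_zero])
          rcases hP.mem_or_mem h with h | h
          · exact iha ha h
          · exact ihc hc h
      refine key n.natAbs (by omega) ?_
      rcases Int.natAbs_eq n with h | h
      · rw [← h]; exact hn
      · have h2 : (n.natAbs : ℤ) = -n := by omega
        rw [h2, C_neg]; exact P.neg_mem hn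
    obtain ⟨p, hpp, hp⟩ := hp
    have : Fact p.Prime := ⟨hpp⟩
    have hmod : ∀ h : ℤ[X], h.map (Int.castRingHom (ZMod p)) = 0 → h ∈ P := by
      intro h hh
      have : C (p : ℤ) ∣ h := by
        rw [C_dvd_iff_dvd_coeff]
        intro i
        have := congrArg (fun q => q.coeff i) hh
        simp only [coeff_map, coeff_zero, eq_intCast] at this
        exact (ZMod.intCast_zmod_eq_zero_iff_dvd _ _).1 this
      obtain ⟨q, rfl⟩ := this
      exact Ideal.mul_mem_right _ _ hp
    have hall : ∀ f ∈ P, f.map (Int.castRingHom (ZMod p)) = 0 := by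
      intro f hf
      by_contra hne
      set fb := f.map (Int.castRingHom (ZMod p)) with hfb
      -- pigeonhole
      have hdeg : ∀ i : ℕ, (X ^ i % fb : (ZMod p)[X]) ∈ degreeLT (ZMod p) (fb.natDegree + 1) := by
        intro i
        rw [mem_degreeLT]
        refine (EuclideanDomain.mod_lt (X ^ i) hne).trans_le ?_
        rw [degree_eq_natDegree hne]
        exact_mod_cast Nat.le_succ _
      let F : ℕ → (Fin (fb.natDegree + 1) → ZMod p) := fun i =>
        degreeLTEquiv (ZMod p) (fb.natDegree + 1) ⟨X ^ i % fb, hdeg i⟩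
      obtain ⟨i, j, hij, hF⟩ := Finite.exists_ne_map_eq_of_infinite F
      have hmodeq : (X ^ i % fb : (ZMod p)[X]) = X ^ j % fb := by
        have := (degreeLTEquiv (ZMod p) (fb.natDegree + 1)).injective hF
        exact congrArg Subtype.val this
      have key : ∀ i j : ℕ, i < j → (X ^ i % fb : (ZMod p)[X]) = X ^ j % fb → False := by
        intro i j hij hmodeq
        have hdvd : fb ∣ (X ^ j - X ^ i : (ZMod p)[X]) := by
          have e1 := EuclideanDomain.div_add_mod (X ^ j : (ZMod p)[X]) fb
          have e2 := EuclideanDomain.div_add_mod (X ^ i : (ZMod p)[X]) fb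
          refine ⟨X ^ j / fb - X ^ i / fb, ?_⟩
          linear_combination (-1 : (ZMod p)[X]) * e1 + e2 - hmodeq
        obtain ⟨gb, hgb⟩ := hdvd
        obtain ⟨g, rfl⟩ := map_surjective (Int.castRingHom (ZMod p))
          (ZMod.intCast_surjective (n := p)) gb
        have h1 : ((X : ℤ[X]) ^ j - X ^ i - f * g) ∈ P := by
          apply hmod
          rw [Polynomial.map_sub, Polynomial.map_sub, Polynomial.map_mul, Polynomial.map_pow,
            Polynomial.map_pow, map_X, ← hfb, hgb, sub_self]
        have h2 : ((X : ℤ[X]) ^ j - X ^ i) ∈ P := by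
          have := P.add_mem h1 (P.mul_mem_right g hf)
          simpa using this
        have h3 : (X : ℤ[X]) ^ j - X ^ i = X ^ i * (X ^ (j - i) - 1) := by
          rw [mul_sub, mul_one, ← pow_add]
          congr 2
          omega
        rw [h3] at h2
        rcases hP.mem_or_mem h2 with h | h
        · exact hX (hP.mem_of_pow_mem _ h)
        · exact hk (j - i) (by omega) h
      rcases lt_or_gt_of_ne hij with h | h
      · exact key i j h hmodeq
      · exact key j i h hmodeq.symm
    refine ⟨p, hpp, fun m c hs j hj => ?_⟩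
    have h1 : (∑ j ∈ range m, C (c j) * X ^ (j * 1) : ℤ[X]) ∈ P := by
      rw [hPdef, mem_ann, aeval_sum]
      simpa using hs
    have h2 := hall _ h1
    have h3 : Polynomial.coeff _ j = Polynomial.coeff _ j := congrArg (fun q => q.coeff j) h2
    have h4 : (∑ j ∈ range m, C (c j) * X ^ (j * 1) : ℤ[X]).coeff j = c j := by
      simp only [finsetSum_coeff, coeff_C_mul, mul_one, coeff_X_pow, mul_ite, mul_zero]
      rw [sum_eq_single j]
      · simp
      · intro i _ hij
        rw [if_neg (Ne.symm hij)]
      · intro h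
        exact absurd (mem_range.2 hj) h
    rw [coeff_map, h4, coeff_zero, eq_intCast] at h3
    exact (ZMod.intCast_zmod_eq_zero_iff_dvd _ _).1 h3
  · left
    push Not at hint
    by_cases hbot : ∃ f ∈ P, f ≠ 0
    · obtain ⟨f, hf, hf0⟩ := hbot
      let D := ℤ[X] ⧸ P
      have : IsDomain D := Ideal.Quotient.isDomain P
      let K := FractionRing D
      let ι : ℤ[X] →+* K := (algebraMap D K).comp (Ideal.Quotient.mk P)
      have hι : ∀ g : ℤ[X], ι g = 0 ↔ g ∈ P := by
        intro g
        show algebraMap D K (Ideal.Quotient.mk P g) = 0 ↔ _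
        rw [FaithfulSMul.algebraMap_eq_zero_iff, Ideal.Quotient.eq_zero_iff_mem]
      have : CharZero K := by
        refine ⟨fun a c hac => ?_⟩
        have h1 : ι (C ((a : ℤ) - (c : ℤ))) = 0 := by
          rw [C_sub, map_sub]
          have : ∀ s : ℕ, ι (C (s : ℤ)) = (s : K) := fun s => by
            have : (C (s : ℤ) : ℤ[X]) = (s : ℤ[X]) := by simp
            rw [this, map_natCast]
          rw [this, this, hac, sub_self]
        by_contra hne
        exact hint _ (by intro h; apply hne; omega) ((hι _).1 h1)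
      set α : K := ι X with hα
      have hpoly : ∀ (h : ℤ →+* K) (g : ℤ[X]), ι g = eval₂ h α g := by
        intro h g
        induction g using Polynomial.induction_on' with
        | add a c ha hc => rw [map_add, eval₂_add, ha, hc]
        | monomial n a =>
          rw [← C_mul_X_pow_eq_monomial, map_mul, map_pow, eval₂_mul, eval₂_C, eval₂_X_pow, ← hα]
          congr 1
          have : (C a : ℤ[X]) = ((a : ℤ) : ℤ[X]) := by simp
          rw [this, map_intCast, eq_intCast]
      have hintα : IsIntegral ℚ α := by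
        have h2 : IsAlgebraic ℚ α := by
          refine ⟨f.map (Int.castRingHom ℚ), ?_, ?_⟩
          · exact (Polynomial.map_ne_zero_iff (RingHom.injective_int _)).2 hf0
          · rw [aeval_def, eval₂_map, ← hpoly, hι]
            exact hf
        exact h2.isIntegral
      let F := IntermediateField.adjoin ℚ {α}
      have : FiniteDimensional ℚ F := IntermediateField.adjoin.finiteDimensional hintα
      have : NumberField F := { }
      let a : F := IntermediateField.AdjoinSimple.gen ℚ α
      have ha : (a : K) = α := IntermediateField.AdjoinSimple.coe_gen ℚ α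
      have h0 : a ≠ 0 := by
        intro h
        have : α = 0 := by rw [← ha, h]; rfl
        exact hX ((hι X).1 this)
      have h1 : ∀ k : ℕ, 0 < k → a ^ k ≠ 1 := by
        intro k hk0 h
        have h2 : α ^ k = 1 := by
          rw [← ha]
          have := congrArg (fun z : F => (z : K)) h
          simpa using this
        apply hk k hk0
        rw [← hι, map_sub, map_pow, map_one, ← hα, h2, sub_self]
      obtain ⟨κ, hκ, hind⟩ := indep_of_not_root a h0 h1
      refine ⟨κ, hκ, fun C' L hL m c hc hs j hj => ?_⟩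
      refine hind C' L hL m c hc ?_ j hj
      have h3 : (∑ j ∈ range m, C (c j) * X ^ (j * L) : ℤ[X]) ∈ P := by
        rw [hPdef, mem_ann, aeval_sum]
        exact hs
      rw [← hι, map_sum] at h3
      have h4 : ((∑ j ∈ range m, (c j : F) * a ^ (j * L) : F) : K) = 0 := by
        rw [← h3]
        rw [AddSubmonoidClass.coe_finsetSum]
        refine sum_congr rfl fun j _ => ?_
        have e1 : ι (C (c j)) = (c j : K) := by
          have : (C (c j) : ℤ[X]) = ((c j : ℤ) : ℤ[X]) := by simp
          rw [this, map_intCast]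
        rw [map_mul, map_pow, ← hα, e1, ← ha]
        push_cast
        rfl
      exact_mod_cast h4
    · push Not at hbot
      refine ⟨1, le_rfl, fun C' L hL m c hc hs j hj => ?_⟩
      have h3 : (∑ j ∈ range m, C (c j) * X ^ (j * L) : ℤ[X]) = 0 := by
        apply hbot
        rw [hPdef, mem_ann, aeval_sum]
        exact hs
      have h4 := congrArg (fun q => q.coeff (j * L)) h3
      have hL0 : 0 < L := by omega
      simp only [finsetSum_coeff, coeff_C_mul, coeff_X_pow, coeff_zero, mul_ite, mul_one,
        mul_zero] at h4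
      rw [sum_eq_single j] at h4
      · simpa using h4
      · intro i _ hij
        rw [if_neg]
        intro h
        exact hij (Nat.eq_of_mul_eq_mul_right hL0 h).symm
      · intro h
        exact absurd (mem_range.2 hj) h

/-- **Independent translates.** If no `(φ ^ k - 1) ^ l` kills `m`, then some element of the
submodule generated by `m` has independent translates, in one of the two possible senses. -/
theorem exists_prop (φ : Module.End ℤ M) (hφ : Function.Injective φ) (m : M)
    (h : ∀ k l : ℕ, 0 < k → ((φ ^ k - 1) ^ l) m ≠ 0) :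
    ∃ g : ℤ[X], PropA φ (aeval φ g m) ∨ PropB φ (aeval φ g m) := by
  obtain ⟨g, h1, h2⟩ := exists_prime_ann φ m fun k l hk hmem => by
    apply h k l hk
    rw [mem_ann] at hmem
    simpa using hmem
  exact ⟨g, prop_of_prime φ hφ _ h1 h2⟩

end Pool.Agent.Helper86.SSP
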