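import Mathlib

/-!
# Collecting in a nilpotent group: a balanced word is a short product of commutators
-/

open scoped commutatorElement

namespace Pool.Agent.Helper86.SSP

variable {G : Type*} [Group G] {ι : Type*}

/-- Value of a letter. -/
def lv (b : ι → G) (l : ι × Bool) : G := if l.2 then b l.1 else (b l.1)⁻¹

/-- Value of a word. -/
def wv (b : ι → G) (w : List (ι × Bool)) : G := (w.map (lv b)).prod

/-- Left-normed commutators of letters. -/
def Com (b : ι → G) : ℕ → Set G
  | 0 => {g | ∃ l, g = lv b l}
  | w + 1 => {g | ∃ u ∈ Com b w, ∃ l, g = ⁅u, lv b l⁆ ∨ g = ⁅lv b l, u⁆}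

/-- Products of at most `n` elements of a set. -/
def SP (K : Set G) (n : ℕ) : Set G :=
  {g | ∃ l : List G, l.length ≤ n ∧ (∀ a ∈ l, a ∈ K) ∧ l.prod = g}

lemma SP.mono {K : Set G} {m n : ℕ} (h : m ≤ n) {g : G} (hg : g ∈ SP K m) : g ∈ SP K n := by
  obtain ⟨l, h1, h2, h3⟩ := hg
  exact ⟨l, h1.trans h, h2, h3⟩

lemma SP.mul {K : Set G} {m n : ℕ} {g h : G} (hg : g ∈ SP K m) (hh : h ∈ SP K n) :
    g * h ∈ SP K (m + n) := by
  obtain ⟨l, h1, h2, rfl⟩ := hg
  obtain ⟨l', h1', h2', rfl⟩ := hh
  refine ⟨l ++ l', by rw [List.length_append]; omega, fun a ha => ?_, List.prod_append⟩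
  rcases List.mem_append.1 ha with h | h
  · exact h2 a h
  · exact h2' a h

lemma SP.one {K : Set G} (n : ℕ) : (1 : G) ∈ SP K n := ⟨[], by simp, by simp, rfl⟩

/-- The commutators of weights between `2` and `c`. -/
def ComSet (b : ι → G) (c : ℕ) : Set G := {g | ∃ w, 1 ≤ w ∧ w < c ∧ g ∈ Com b w}

lemma wv_append (b : ι → G) (u v : List (ι × Bool)) : wv b (u ++ v) = wv b u * wv b v := by
  simp [wv]

lemma wv_cons (b : ι → G) (l : ι × Bool) (v : List (ι × Bool)) :
    wv b (l :: v) = lv b l * wv b v := by
  simp [wv]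

lemma conj_mem {b : ι → G} {c : ℕ} (hc : ∀ g ∈ Com b c, g = 1) (k : ℕ) :
    ∀ (w : ℕ) (A : List (ι × Bool)) (u : G), 1 ≤ w → w + k = c → u ∈ Com b w →
      wv b A * u * (wv b A)⁻¹ ∈ SP (ComSet b c) ((A.length + 1) ^ k) := by
  induction k with
  | zero =>
    intro w A u _ hw hu
    rw [Nat.add_zero] at hw
    subst hw
    rw [hc u hu]
    simpa using SP.one _
  | succ k ih =>
    intro w A u h1 hw hu
    induction A using List.reverseRecOn with
    | nil =>
      refine ⟨[u], by simp, fun a ha => ?_, by simp [wv]⟩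
      rw [List.mem_singleton.1 ha]
      exact ⟨w, h1, by omega, hu⟩
    | append_singleton A y ihA =>
      have h2 : ⁅lv b y, u⁆ ∈ Com b (w + 1) := ⟨u, hu, y, Or.inr rfl⟩
      have h3 := ih (w + 1) A _ (by omega) (by omega) h2
      have e : wv b (A ++ [y]) * u * (wv b (A ++ [y]))⁻¹ =
          (wv b A * ⁅lv b y, u⁆ * (wv b A)⁻¹) * (wv b A * u * (wv b A)⁻¹) := by
        rw [wv_append, wv_cons, commutatorElement_def]
        simp only [wv, List.map_nil, List.prod_nil]
        group
      rw [e]
      refine SP.mono ?_ (SP.mul h3 ihA)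
      rw [List.length_append, List.length_singleton]
      have : (A.length + 1 + 1) ^ (k + 1) ≥ (A.length + 1) ^ k + (A.length + 1) ^ (k + 1) := by
        calc (A.length + 1) ^ k + (A.length + 1) ^ (k + 1)
            = (A.length + 1) ^ k * (A.length + 1 + 1) := by ring
          _ ≤ (A.length + 1 + 1) ^ k * (A.length + 1 + 1) :=
              Nat.mul_le_mul_right _ (Nat.pow_le_pow_left (Nat.le_succ _) _)
          _ = (A.length + 1 + 1) ^ (k + 1) := by ring
      exact this

lemma move_mem {b : ι → G} {c : ℕ} (hc : ∀ g ∈ Com b c, g = 1) (hc1 : 1 ≤ c)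
    (y : ι × Bool) (u : List (ι × Bool)) : ∀ A : List (ι × Bool),
    wv b A * ⁅wv b u, lv b y⁆ * (wv b A)⁻¹ ∈
      SP (ComSet b c) (u.length * (A.length + u.length + 1) ^ c) := by
  induction u with
  | nil =>
    intro A
    simpa [wv] using SP.one _
  | cons z u ih =>
    intro A
    have h1 := ih (A ++ [z])
    have h2 : ⁅lv b z, lv b y⁆ ∈ Com b 1 := ⟨lv b z, ⟨z, rfl⟩, y, Or.inl rfl⟩
    have h3 := conj_mem hc (c - 1) 1 A _ le_rfl (by omega) h2
    have e : wv b A * ⁅wv b (z :: u), lv b y⁆ * (wv b A)⁻¹ =
        (wv b (A ++ [z]) * ⁅wv b u, lv b y⁆ * (wv b (A ++ [z]))⁻¹) *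
          (wv b A * ⁅lv b z, lv b y⁆ * (wv b A)⁻¹) := by
      rw [wv_append, wv_cons, wv_cons, commutatorElement_def, commutatorElement_def,
        commutatorElement_def]
      simp only [wv, List.map_nil, List.prod_nil]
      group
    rw [e]
    refine SP.mono ?_ (SP.mul h1 h3)
    rw [List.length_append, List.length_singleton, List.length_cons]
    have e1 : A.length + 1 + u.length + 1 = A.length + (u.length + 1) + 1 := by omega
    rw [e1]
    have e2 : (A.length + 1) ^ (c - 1) ≤ (A.length + (u.length + 1) + 1) ^ c :=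
      (Nat.pow_le_pow_left (by omega) _).trans (Nat.pow_le_pow_right (by omega) (by omega))
    calc u.length * (A.length + (u.length + 1) + 1) ^ c + (A.length + 1) ^ (c - 1)
        ≤ u.length * (A.length + (u.length + 1) + 1) ^ c +
          (A.length + (u.length + 1) + 1) ^ c := Nat.add_le_add_left e2 _
      _ = (u.length + 1) * (A.length + (u.length + 1) + 1) ^ c := by ring

/-- A word in which every letter occurs as often as its inverse. -/
def Bal [DecidableEq ι] (w : List (ι × Bool)) : Prop :=
  ∀ i, w.count (i, true) = w.count (i, false)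

/-- **Collection.** A balanced word is a short product of left-normed commutators of letters. -/
theorem balanced_mem [DecidableEq ι] {b : ι → G} {c : ℕ} (hc : ∀ g ∈ Com b c, g = 1)
    (hc1 : 1 ≤ c) : ∀ (n : ℕ) (w : List (ι × Bool)), w.length ≤ n → Bal w →
      wv b w ∈ SP (ComSet b c) (n * (n * (n + 1) ^ c)) := by
  intro n
  induction n using Nat.strong_induction_on with
  | _ n ih =>
    intro w hw hbal
    rcases w with _ | ⟨⟨i, s⟩, w'⟩
    · simpa [wv] using SP.one _
    · have hmem : (i, !s) ∈ w' := by
        have h1 := hbal i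
        rw [← List.count_pos_iff]
        cases s
        · rw [List.count_cons, List.count_cons_self] at h1
          simp at h1
          simp only [Bool.not_false]
          omega
        · rw [List.count_cons_self, List.count_cons] at h1
          simp at h1
          simp only [Bool.not_true]
          omega
      obtain ⟨u, v, rfl⟩ := List.append_of_mem hmem
      rw [List.length_cons, List.length_append, List.length_cons] at hw
      have hbal' : Bal (u ++ v) := by
        intro j
        have h1 := hbal j
        simp only [List.count_cons, List.count_append] at h1 ⊢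
        by_cases hj : i = j
        · subst hj
          cases s <;> simp at h1 ⊢ <;> omega
        · have h2 : ∀ t t' : Bool, ((i, t) == (j, t')) = false := by
            intro t t'
            simp [hj]
          simp only [h2, if_false, Bool.false_eq_true] at h1
          omega
      have h1 := ih (n - 2) (by omega) (u ++ v) (by rw [List.length_append]; omega) hbal'
      have h2 := move_mem hc hc1 (i, !s) u [(i, s)]
      have hinv : lv b (i, !s) = (lv b (i, s))⁻¹ := by
        cases s <;> simp [lv]
      have e : wv b ((i, s) :: (u ++ (i, !s) :: v)) =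
          (wv b [(i, s)] * ⁅wv b u, lv b (i, !s)⁆ * (wv b [(i, s)])⁻¹) * wv b (u ++ v) := by
        rw [wv_cons, wv_append, wv_append, wv_cons, wv_cons, hinv, commutatorElement_def]
        simp only [wv, List.map_nil, List.prod_nil]
        group
      rw [e]
      refine SP.mono ?_ (SP.mul h2 h1)
      rw [List.length_singleton]
      have e1 : u.length * (1 + u.length + 1) ^ c ≤ n * (n + 1) ^ c :=
        Nat.mul_le_mul (by omega) (Nat.pow_le_pow_left (by omega) _)
      have e2 : (n - 2) * ((n - 2) * (n - 2 + 1) ^ c) ≤ (n - 2) * (n * (n + 1) ^ c) :=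
        Nat.mul_le_mul_left _ (Nat.mul_le_mul (by omega) (Nat.pow_le_pow_left (by omega) _))
      have hn : n = (n - 2) + 2 := by omega
      calc u.length * (1 + u.length + 1) ^ c + (n - 2) * ((n - 2) * (n - 2 + 1) ^ c)
          ≤ n * (n + 1) ^ c + (n - 2) * (n * (n + 1) ^ c) := Nat.add_le_add e1 e2
        _ = (n - 2 + 1) * (n * (n + 1) ^ c) := by ring
        _ ≤ n * (n * (n + 1) ^ c) := Nat.mul_le_mul_right _ (by omega)

/-- Short products are products of sublists of a repeated list. -/
lemma exists_sublist_of_mem_SP {K : Set G} {L : List G} (hL : ∀ a ∈ K, a ∈ L) :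
    ∀ (n : ℕ) (g : G), g ∈ SP K n → ∃ l : List G, l.Sublist (List.replicate n L).flatten ∧ l.prod = g := by
  intro n
  induction n with
  | zero =>
    rintro g ⟨l, h1, _, rfl⟩
    have : l = [] := List.length_eq_zero_iff.1 (by omega)
    exact ⟨[], by simp, by rw [this]⟩
  | succ n ih =>
    rintro g ⟨l, h1, h2, rfl⟩
    rcases l with _ | ⟨a, l⟩
    · exact ⟨[], by simp, rfl⟩
    · obtain ⟨l', h3, h4⟩ := ih l.prod ⟨l, by simpa using h1, fun x hx => h2 x (by simp [hx]), rfl⟩
      refine ⟨[a] ++ l', ?_, by simp [h4]⟩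
      rw [List.replicate_succ, List.flatten_cons]
      exact (List.singleton_sublist.2 (hL a (h2 a (by simp)))).append h3

end Pool.Agent.Helper86.SSP
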