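import Mathlib

/-!
# P. Hall's nilpotency criterion
-/

namespace Pool.Agent.Helper86.SSP

variable {G : Type*} [Group G]

/-- The three subgroups lemma modulo a normal subgroup. -/
lemma three_subgroups (A B K Y : Subgroup G) [Y.Normal] (h1 : ⁅⁅B, K⁆, A⁆ ≤ Y)
    (h2 : ⁅⁅K, A⁆, B⁆ ≤ Y) : ⁅⁅A, B⁆, K⁆ ≤ Y := by
  have key : ∀ Z : Subgroup G, Z ≤ Y ↔ Z.map (QuotientGroup.mk' Y) = ⊥ := by
    intro Z
    rw [Subgroup.map_eq_bot_iff, QuotientGroup.ker_mk']
  rw [key, Subgroup.map_commutator, Subgroup.map_commutator] at *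
  exact Subgroup.commutator_commutator_eq_bot_of_rotate h1 h2

/-- Iterated commutators `[A, K, ..., K]`. -/
def it (K A : Subgroup G) : ℕ → Subgroup G
  | 0 => A
  | n + 1 => ⁅it K A n, K⁆

instance it_normal (K A : Subgroup G) [K.Normal] [A.Normal] (n : ℕ) : (it K A n).Normal := by
  induction n with
  | zero => exact inferInstanceAs A.Normal
  | succ n ih => exact Subgroup.commutator_normal _ _

lemma it_mono (K : Subgroup G) {A B : Subgroup G} (h : A ≤ B) (n : ℕ) : it K A n ≤ it K B n := by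
  induction n with
  | zero => exact h
  | succ n ih => exact Subgroup.commutator_mono ih le_rfl

lemma it_add (K A : Subgroup G) (m n : ℕ) : it K A (m + n) = it K (it K A m) n := by
  induction n with
  | zero => rfl
  | succ n ih => rw [← Nat.add_assoc]; show ⁅it K A (m + n), K⁆ = _; rw [ih]; rfl

lemma it_antitone (K A : Subgroup G) [K.Normal] [A.Normal] : Antitone (it K A) :=
  antitone_nat_of_succ_le fun _ => Subgroup.commutator_le_left _ _

/-- To bound the commutator of a supremum. -/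
lemma commutator_iSup_le {ι : Sort*} (A : ι → Subgroup G) (K Y : Subgroup G) [Y.Normal]
    (h : ∀ i, ⁅A i, K⁆ ≤ Y) : ⁅⨆ i, A i, K⁆ ≤ Y := by
  rw [Subgroup.commutator_le]
  intro g hg k hk
  induction hg using Subgroup.iSup_induction' with
  | hp i x hx => exact h i (Subgroup.commutator_mem_commutator hx hk)
  | h1 => rw [commutatorElement_one_left]; exact Y.one_mem
  | hmul x y _ _ hx hy =>
    rw [commutatorElement_mul_left_eq_conj_mul]
    exact Y.mul_mem (Subgroup.Normal.conj_mem inferInstance _ hy _) hx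

/-- One step of Hall's criterion. -/
lemma hall_step (N K A : Subgroup G) [N.Normal] [K.Normal] [A.Normal] {s n : ℕ}
    (hA : it K A s ≤ ⁅A, N⁆) (hN : it K N n ≤ ⁅N, N⁆) :
    it K ⁅A, N⁆ (s + n) ≤ ⁅⁅A, N⁆, N⁆ := by
  let Y : Subgroup G := ⁅⁅A, N⁆, N⁆
  have hY : Y.Normal := Subgroup.commutator_normal _ _
  let B : ℕ → Subgroup G := fun m => ⨆ p : {p : ℕ × ℕ // p.1 + p.2 = m},
    (⁅it K A p.1.1, it K N p.1.2⁆ ⊔ Y)
  have hBn : ∀ m, (B m).Normal := fun m => by
    refine ⟨fun g hg x => ?_⟩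
    induction hg using Subgroup.iSup_induction' with
    | hp p y hy =>
      exact Subgroup.mem_iSup_of_mem p (Subgroup.Normal.conj_mem inferInstance y hy x)
    | h1 => simp
    | hmul y z _ _ hy hz =>
      have : x * (y * z) * x⁻¹ = (x * y * x⁻¹) * (x * z * x⁻¹) := by group
      rw [this]
      exact mul_mem hy hz
  have hstep : ∀ m, ⁅B m, K⁆ ≤ B (m + 1) := by
    intro m
    have := hBn (m + 1)
    refine commutator_iSup_le _ _ _ fun p => ?_
    obtain ⟨⟨a, b⟩, hab⟩ := p
    simp only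
    have hle : ∀ a' b' : ℕ, a' + b' = m + 1 → ⁅it K A a', it K N b'⁆ ≤ B (m + 1) := by
      intro a' b' h
      exact le_sup_left.trans (le_iSup (fun p : {p : ℕ × ℕ // p.1 + p.2 = m + 1} =>
        (⁅it K A p.1.1, it K N p.1.2⁆ ⊔ Y)) ⟨(a', b'), h⟩)
    have hYle : Y ≤ B (m + 1) :=
      le_sup_right.trans (le_iSup (fun p : {p : ℕ × ℕ // p.1 + p.2 = m + 1} =>
        (⁅it K A p.1.1, it K N p.1.2⁆ ⊔ Y)) ⟨(m + 1, 0), rfl⟩)
    have e : (⁅it K A a, it K N b⁆ ⊔ Y) = ⨆ i : Bool, cond i ⁅it K A a, it K N b⁆ Y := by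
      rw [iSup_bool_eq]
      rfl
    rw [e]
    refine commutator_iSup_le _ _ _ fun i => ?_
    cases i
    · exact (Subgroup.commutator_le_left (H₁ := Y) (H₂ := K)).trans hYle
    · simp only [cond_true]
      refine three_subgroups _ _ _ _ ?_ ?_
      · rw [Subgroup.commutator_comm]
        exact hle a (b + 1) (by simp only at hab; omega)
      · rw [Subgroup.commutator_comm K]
        exact hle (a + 1) b (by simp only at hab; omega)
  have hit : ∀ m, it K ⁅A, N⁆ m ≤ B m := by
    intro m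
    induction m with
    | zero =>
      exact le_sup_left.trans (le_iSup (fun p : {p : ℕ × ℕ // p.1 + p.2 = 0} =>
        (⁅it K A p.1.1, it K N p.1.2⁆ ⊔ Y)) ⟨(0, 0), rfl⟩)
    | succ m ih => exact (Subgroup.commutator_mono ih le_rfl).trans (hstep m)
  refine (hit _).trans (iSup_le fun p => ?_)
  obtain ⟨⟨a, b⟩, hab⟩ := p
  simp only at hab ⊢
  refine sup_le ?_ le_rfl
  by_cases h : s ≤ a
  · exact Subgroup.commutator_mono ((it_antitone K A h).trans hA) (it_antitone K N (Nat.zero_le b))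
  · have hb : n ≤ b := by omega
    refine (Subgroup.commutator_mono (it_antitone K A (Nat.zero_le a))
      ((it_antitone K N hb).trans hN)).trans ?_
    show ⁅A, ⁅N, N⁆⁆ ≤ ⁅⁅A, N⁆, N⁆
    rw [Subgroup.commutator_comm]
    refine three_subgroups _ _ _ _ ?_ le_rfl
    rw [Subgroup.commutator_comm N A]

/-- **Hall's criterion.** -/
theorem hall (N K : Subgroup G) [N.Normal] [K.Normal] (hKN : ⁅K, K⁆ ≤ N) {c n : ℕ}
    (hc : N.lowerCentralSeries c = ⊥) (hN : it K N n ≤ ⁅N, N⁆) :
    ∃ T, K.lowerCentralSeries T = ⊥ := by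
  have hs : ∀ i, ∃ s, it K (N.lowerCentralSeries i) s ≤ N.lowerCentralSeries (i + 1) := by
    intro i
    induction i with
    | zero => exact ⟨n, hN⟩
    | succ i ih =>
      obtain ⟨s, hs⟩ := ih
      exact ⟨s + n, hall_step N K (N.lowerCentralSeries i) hs hN⟩
  have hT : ∀ i, ∃ T, K.lowerCentralSeries T ≤ N.lowerCentralSeries i := by
    intro i
    induction i with
    | zero => exact ⟨1, hKN⟩
    | succ i ih =>
      obtain ⟨T, hT⟩ := ih
      obtain ⟨s, hs⟩ := hs i
      have h : ∀ m, K.lowerCentralSeries (T + m) = it K (K.lowerCentralSeries T) m := by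
        intro m
        induction m with
        | zero => rfl
        | succ m ihm => rw [← Nat.add_assoc, Subgroup.lowerCentralSeries_succ, ihm]; rfl
      exact ⟨T + s, (h s).le.trans ((it_mono K hT s).trans hs)⟩
  obtain ⟨T, hT⟩ := hT c
  exact ⟨T, le_bot_iff.1 (hT.trans hc.le)⟩

end Pool.Agent.Helper86.SSP
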