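import Mathlib
import Pool.Agent.Helper86.SSP.Nil

/-!
# A criterion for virtual nilpotency of a finitely generated nilpotent-by-abelian group
-/

open Polynomial
open scoped commutatorElement

namespace Pool.Agent.Helper86.SSP

variable {H : Type*} [Group H]

/-- The abelianized derived subgroup, written additively. -/
abbrev Mod (H : Type*) [Group H] : Type _ := Additive (Abelianization (commutator H))

/-- The class of an element of the derived subgroup. -/
def cls (z : commutator H) : Mod H := Additive.ofMul (Abelianization.of z)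

lemma cls_mul (z w : commutator H) : cls (z * w) = cls z + cls w := rfl

lemma cls_one : cls (1 : commutator H) = 0 := rfl

lemma cls_inv (z : commutator H) : cls z⁻¹ = -cls z := rfl

lemma cls_surjective : Function.Surjective (cls : commutator H → Mod H) := fun m => by
  obtain ⟨z, hz⟩ := QuotientGroup.mk_surjective (Additive.toMul m)
  exact ⟨z, hz⟩

lemma cls_eq_zero {z : commutator H} : cls z = 0 ↔ z ∈ commutator (commutator H) :=
  QuotientGroup.eq_one_iff z

/-- The action of `H` by conjugation. -/
noncomputable def act (x : H) : Module.End ℤ (Mod H) :=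
  ((MulAut.conjNormal x : MulAut (commutator H)).abelianizationCongr.toAdditive :
    Mod H ≃+ Mod H).toAddMonoidHom.toIntLinearMap

lemma act_cls (x : H) (z : commutator H) :
    act x (cls z) = cls (MulAut.conjNormal x z) := rfl

lemma end_ext {f g : Module.End ℤ (Mod H)} (h : ∀ z, f (cls z) = g (cls z)) : f = g := by
  ext m
  obtain ⟨z, rfl⟩ := cls_surjective m
  exact h z

lemma act_one : act (1 : H) = 1 := end_ext fun z => by
  rw [act_cls, map_one]; rfl

lemma act_mul (x y : H) : act (x * y) = act x * act y := end_ext fun z => by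
  rw [Module.End.mul_apply, act_cls, act_cls, act_cls, map_mul]; rfl

lemma act_pow (x : H) (n : ℕ) : act (x ^ n) = act x ^ n := by
  induction n with
  | zero => rw [pow_zero, pow_zero, act_one]
  | succ n ih => rw [pow_succ, pow_succ, act_mul, ih]

lemma act_injective (x : H) : Function.Injective (act x) := by
  intro a b hab
  have h : act x⁻¹ * act x = 1 := by rw [← act_mul, inv_mul_cancel, act_one]
  have := congrArg (act x⁻¹) hab
  rwa [← Module.End.mul_apply, ← Module.End.mul_apply, h] at this

/-- Elements of the derived subgroup act trivially. -/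
lemma act_of_mem {x : H} (hx : x ∈ commutator H) : act x = 1 := end_ext fun z => by
  rw [act_cls]
  have : MulAut.conjNormal x z = (⟨x, hx⟩ : commutator H) * z * (⟨x, hx⟩ : commutator H)⁻¹ := by
    ext; simp
  rw [this, cls_mul, cls_mul, cls_inv, Module.End.one_apply]
  abel

/-- The action, as a homomorphism. -/
noncomputable def actHom : H →* (Module.End ℤ (Mod H))ˣ where
  toFun x := ⟨act x, act x⁻¹, by rw [← act_mul, mul_inv_cancel, act_one],
    by rw [← act_mul, inv_mul_cancel, act_one]⟩
  map_one' := Units.ext act_one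
  map_mul' x y := Units.ext (act_mul x y)

/-- The action of the abelianization. -/
noncomputable def actQ : Abelianization H →* Module.End ℤ (Mod H) :=
  (Units.coeHom _).comp (QuotientGroup.lift (commutator H) actHom fun _ hx =>
    Units.ext (act_of_mem hx))

lemma actQ_of (x : H) : actQ (Abelianization.of x) = act x := rfl

lemma act_comm (x y : H) : act x * act y = act y * act x := by
  rw [← actQ_of, ← actQ_of, ← map_mul, mul_comm, map_mul]

/-- The derived subgroup is the normal closure of the commutators of generators. -/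
lemma commutator_le_of_gens {S : Set H} (hS : Subgroup.closure S = ⊤) (K : Subgroup H) [K.Normal]
    (hK : ∀ s ∈ S, ∀ t ∈ S, ⁅s, t⁆ ∈ K) : commutator H ≤ K := by
  rw [← Subgroup.Normal.quotient_commutative_iff_commutator_le]
  have h1 : Subgroup.closure ((QuotientGroup.mk' K) '' S) = ⊤ := by
    rw [← MonoidHom.map_closure, hS, ← MonoidHom.range_eq_map, QuotientGroup.range_mk']
  refine ⟨⟨fun a b => ?_⟩⟩
  have ha : a ∈ Subgroup.closure ((QuotientGroup.mk' K) '' S) := by rw [h1]; trivial
  have hb : b ∈ Subgroup.closure ((QuotientGroup.mk' K) '' S) := by rw [h1]; trivial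
  have hc : ∀ x ∈ (QuotientGroup.mk' K) '' S, ∀ y ∈ (QuotientGroup.mk' K) '' S,
      x * y = y * x := by
    rintro _ ⟨s, hs, rfl⟩ _ ⟨t, ht, rfl⟩
    rw [← commutatorElement_eq_one_iff_mul_comm, ← map_commutatorElement, QuotientGroup.mk'_apply,
      QuotientGroup.eq_one_iff]
    exact hK s hs t ht
  have h2 := Subgroup.closure_le_centralizer_centralizer ((QuotientGroup.mk' K) '' S)
  have h3 : b ∈ Subgroup.centralizer ((QuotientGroup.mk' K) '' S) := by
    have : Subgroup.closure ((QuotientGroup.mk' K) '' S) ≤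
        Subgroup.centralizer ((QuotientGroup.mk' K) '' S) := by
      rw [Subgroup.closure_le]
      intro x hx
      rw [SetLike.mem_coe, Subgroup.mem_centralizer_iff]
      exact fun y hy => hc y hy x hx
    exact this hb
  exact ((Subgroup.mem_centralizer_iff.1 (h2 ha)) b h3).symm

/-- The elements of the derived subgroup whose classes lie in a submodule. -/
def pre (W : AddSubgroup (Mod H)) : Subgroup H where
  carrier := {z | ∃ hz : z ∈ commutator H, cls ⟨z, hz⟩ ∈ W}
  one_mem' := ⟨one_mem _, W.zero_mem⟩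
  mul_mem' := by
    rintro a b ⟨ha, ha'⟩ ⟨hb, hb'⟩
    exact ⟨mul_mem ha hb, W.add_mem ha' hb'⟩
  inv_mem' := by
    rintro a ⟨ha, ha'⟩
    exact ⟨inv_mem ha, W.neg_mem ha'⟩

lemma mem_pre {W : AddSubgroup (Mod H)} {z : H} :
    z ∈ pre W ↔ ∃ hz : z ∈ commutator H, cls ⟨z, hz⟩ ∈ W := Iff.rfl

lemma pre_normal (W : AddSubgroup (Mod H)) (hW : ∀ x, ∀ m ∈ W, act x m ∈ W) :
    (pre W).Normal := by
  refine ⟨fun z hz x => ?_⟩
  obtain ⟨hz, hz'⟩ := hz
  refine ⟨Subgroup.Normal.conj_mem inferInstance z hz x, ?_⟩
  have := hW x _ hz'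
  rw [act_cls] at this
  convert this using 2
  ext
  simp

/-- A submodule of the abelianized derived subgroup that is stable under conjugation and contains
the commutators of the generators is everything. -/
lemma eq_top_of_gens {S : Set H} (hS : Subgroup.closure S = ⊤) (W : AddSubgroup (Mod H))
    (hW : ∀ x, ∀ m ∈ W, act x m ∈ W)
    (hgen : ∀ s ∈ S, ∀ t ∈ S, ∀ h : ⁅s, t⁆ ∈ commutator H, cls ⟨⁅s, t⁆, h⟩ ∈ W) (m : Mod H) :
    m ∈ W := by
  have := pre_normal W hW
  have h1 := commutator_le_of_gens hS (pre W) fun s hs t ht =>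
    ⟨Subgroup.commutator_mem_commutator trivial trivial, hgen s hs t ht _⟩
  obtain ⟨z, rfl⟩ := cls_surjective m
  obtain ⟨_, h2⟩ := h1 z.2
  exact h2

/-- The group ring of the abelianization acts. -/
noncomputable def ringAct : MonoidAlgebra ℤ (Abelianization H) →ₐ[ℤ] Module.End ℤ (Mod H) :=
  MonoidAlgebra.lift ℤ _ (Abelianization H) actQ

/-- The element of the group ring that belongs to an element of the group. -/
noncomputable def el (x : H) : MonoidAlgebra ℤ (Abelianization H) :=
  MonoidAlgebra.of ℤ _ (Abelianization.of x)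

lemma ringAct_el (x : H) : ringAct (el x) = act x := by
  unfold ringAct el
  rw [MonoidAlgebra.lift_of]
  rfl

lemma el_mul (x y : H) : el (x * y) = el x * el y := by
  unfold el; rw [map_mul, map_mul]

lemma el_one : el (1 : H) = 1 := by
  unfold el; rw [map_one, map_one]

lemma el_pow (x : H) (n : ℕ) : el (x ^ n) = el x ^ n := by
  unfold el; rw [map_pow, map_pow]

/-- The elements of the group that are `1` modulo an ideal of the group ring. -/
noncomputable def cong (I : Ideal (MonoidAlgebra ℤ (Abelianization H))) : Subgroup H where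
  carrier := {y | el y - 1 ∈ I}
  one_mem' := by
    show el (1 : H) - 1 ∈ I
    rw [el_one, sub_self]; exact I.zero_mem
  mul_mem' := by
    intro a b ha hb
    show el (a * b) - 1 ∈ I
    have : el (a * b) - 1 = el a * (el b - 1) + (el a - 1) := by rw [el_mul]; ring
    rw [this]
    exact I.add_mem (I.mul_mem_left _ hb) ha
  inv_mem' := by
    intro a ha
    show el a⁻¹ - 1 ∈ I
    have h1 : el a⁻¹ * el a = 1 := by rw [← el_mul, inv_mul_cancel, el_one]
    have : el a⁻¹ - 1 = -(el a⁻¹ * (el a - 1)) := by
      linear_combination h1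
    rw [this]
    exact I.neg_mem (I.mul_mem_left _ ha)

lemma mem_cong {I : Ideal (MonoidAlgebra ℤ (Abelianization H))} {y : H} :
    y ∈ cong I ↔ el y - 1 ∈ I := Iff.rfl

lemma commutator_le_cong (I : Ideal (MonoidAlgebra ℤ (Abelianization H))) :
    commutator H ≤ cong I := by
  intro y hy
  have : el y = 1 := by
    unfold el
    have h : Abelianization.of y = 1 := by
      rw [← MonoidHom.mem_ker, Abelianization.ker_of]; exact hy
    rw [h, map_one]
  rw [mem_cong, this, sub_self]
  exact I.zero_mem

/-- The submodule of the elements obtained from an ideal of the group ring. -/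
noncomputable def idealMul (J : Ideal (MonoidAlgebra ℤ (Abelianization H))) :
    AddSubgroup (Mod H) :=
  AddSubgroup.closure {m | ∃ r ∈ J, ∃ m', m = ringAct r m'}

lemma ringAct_mem {I J : Ideal (MonoidAlgebra ℤ (Abelianization H))}
    {r : MonoidAlgebra ℤ (Abelianization H)} (hr : r ∈ I) {m : Mod H} (hm : m ∈ idealMul J) :
    ringAct r m ∈ idealMul (I * J) := by
  unfold idealMul at *
  induction hm using AddSubgroup.closure_induction with
  | mem x hx =>
    obtain ⟨s, hs, m', rfl⟩ := hx
    refine AddSubgroup.subset_closure ⟨r * s, Ideal.mul_mem_mul hr hs, m', ?_⟩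
    rw [map_mul, Module.End.mul_apply]
  | zero => rw [map_zero]; exact zero_mem _
  | add x y _ _ hx hy => rw [map_add]; exact add_mem hx hy
  | neg x _ hx => rw [map_neg]; exact neg_mem hx

lemma it_le_pre (I : Ideal (MonoidAlgebra ℤ (Abelianization H))) (n : ℕ) :
    it (cong I) (commutator H) n ≤ pre (idealMul (I ^ n)) := by
  induction n with
  | zero =>
    intro z hz
    refine ⟨hz, AddSubgroup.subset_closure ⟨1, by simp, cls ⟨z, hz⟩, ?_⟩⟩
    rw [map_one]; rfl
  | succ n ih =>
    show ⁅it (cong I) (commutator H) n, cong I⁆ ≤ _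
    rw [Subgroup.commutator_le]
    intro z hz y hy
    obtain ⟨hz1, hz2⟩ := ih hz
    have hmem : ⁅z, y⁆ ∈ commutator H := Subgroup.commutator_mem_commutator trivial trivial
    refine ⟨hmem, ?_⟩
    have h1 : cls ⟨⁅z, y⁆, hmem⟩ = -ringAct (el y - 1) (cls ⟨z, hz1⟩) := by
      have h2 : (⟨⁅z, y⁆, hmem⟩ : commutator H) =
          ⟨z, hz1⟩ * MulAut.conjNormal y (⟨z, hz1⟩ : commutator H)⁻¹ := by
        ext
        simp [commutatorElement_def, mul_assoc]
      rw [h2, cls_mul, ← act_cls, cls_inv, map_neg, map_sub, ringAct_el, map_one,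
        LinearMap.sub_apply, Module.End.one_apply]
      abel
    rw [h1, pow_succ']
    exact neg_mem (ringAct_mem hy hz2)

lemma commutator_commutator_eq :
    (commutator (commutator H)).map (commutator H).subtype = ⁅commutator H, commutator H⁆ :=
  Subgroup.map_subtype_commutator _

/-- **A finitely generated nilpotent-by-abelian group on whose abelianized derived subgroup all
elements act tamely is virtually nilpotent.** -/
theorem isVirtuallyNilpotent_of_tame [Group.FG H] (hnil : Group.IsNilpotent (commutator H))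
    (htame : ∀ (x : H) (m : Mod H), ∃ k l : ℕ, 0 < k ∧ ((act x ^ k - 1) ^ l) m = 0) :
    Group.IsVirtuallyNilpotent H := by
  classical
  obtain ⟨S, hS⟩ := (Group.fg_def (G := H)).1 inferInstance
  -- uniform exponents
  choose k l hk hkl using fun (x : H) (m : Mod H) => htame x m
  let com : H → H → Mod H := fun s t =>
    cls ⟨⁅s, t⁆, Subgroup.commutator_mem_commutator trivial trivial⟩
  let K₀ : ℕ := ∏ p ∈ S ×ˢ (S ×ˢ S), k p.1 (com p.2.1 p.2.2)
  let L₀ : ℕ := ∑ p ∈ S ×ˢ (S ×ˢ S), l p.1 (com p.2.1 p.2.2)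
  have hK₀ : 0 < K₀ := Finset.prod_pos fun p _ => hk _ _
  have huni : ∀ x ∈ S, ∀ s ∈ S, ∀ t ∈ S, ((act x ^ K₀ - 1) ^ L₀) (com s t) = 0 := by
    intro x hx s hs t ht
    have hp : (x, (s, t)) ∈ S ×ˢ (S ×ˢ S) :=
      Finset.mem_product.2 ⟨hx, Finset.mem_product.2 ⟨hs, ht⟩⟩
    obtain ⟨q, hq⟩ := Finset.dvd_prod_of_mem (fun p : H × H × H => k p.1 (com p.2.1 p.2.2)) hp
    have hl : l x (com s t) ≤ L₀ :=
      Finset.single_le_sum (f := fun p : H × H × H => l p.1 (com p.2.1 p.2.2))
        (fun _ _ => Nat.zero_le _) hp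
    have h1 : ((X : ℤ[X]) ^ k x (com s t) - 1) ^ l x (com s t) ∣ (X ^ K₀ - 1) ^ L₀ := by
      refine (pow_dvd_pow_of_dvd ?_ _).trans (pow_dvd_pow _ hl)
      show _ ∣ X ^ K₀ - 1
      have : K₀ = k x (com s t) * q := hq
      rw [this, pow_mul]
      exact sub_one_dvd_pow_sub_one _ _
    obtain ⟨r, hr⟩ := h1
    have h2 : aeval (act x) (((X : ℤ[X]) ^ K₀ - 1) ^ L₀) (com s t) = 0 := by
      rw [hr, mul_comm, map_mul, Module.End.mul_apply]
      have := hkl x (com s t)
      have h3 : aeval (act x) (((X : ℤ[X]) ^ k x (com s t) - 1) ^ l x (com s t)) (com s t) = 0 := by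
        simpa using this
      rw [h3, map_zero]
    simpa using h2
  have hkill : ∀ x ∈ S, ((act x ^ K₀ - 1) ^ L₀ : Module.End ℤ (Mod H)) = 0 := by
    intro x hx
    have hcomm : ∀ y : H, Commute ((act x ^ K₀ - 1) ^ L₀) (act y) := fun y => by
      have h : Commute (act x) (act y) := act_comm x y
      exact ((h.pow_left K₀).sub_left (Commute.one_left _)).pow_left _
    refine LinearMap.ext fun m => ?_
    refine eq_top_of_gens (S := (S : Set H)) hS
      (LinearMap.ker ((act x ^ K₀ - 1) ^ L₀)).toAddSubgroup ?_ ?_ m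
    · intro y m hm
      have hm' : ((act x ^ K₀ - 1) ^ L₀) m = 0 := hm
      show ((act x ^ K₀ - 1) ^ L₀) (act y m) = 0
      rw [← Module.End.mul_apply, (hcomm y).eq, Module.End.mul_apply, hm', map_zero]
    · intro s hs t ht h
      exact huni x hx s hs t ht
  -- the ideal
  let I : Ideal (MonoidAlgebra ℤ (Abelianization H)) :=
    Ideal.span (((S.image fun x => el (x ^ K₀) - 1 : Finset _)) : Set _)
  have hI : ∃ n : ℕ, I ^ n ≤ RingHom.ker (ringAct (H := H)) := by
    refine Ideal.exists_pow_le_of_le_radical_of_fg ?_ ⟨_, rfl⟩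
    rw [Ideal.span_le]
    intro r hr
    rw [Finset.mem_coe, Finset.mem_image] at hr
    obtain ⟨x, hx, rfl⟩ := hr
    refine ⟨L₀, ?_⟩
    rw [RingHom.mem_ker]
    show ringAct ((el (x ^ K₀) - 1) ^ L₀) = 0
    rw [map_pow, map_sub, map_one, ringAct_el, act_pow]
    exact hkill x hx
  obtain ⟨n, hn⟩ := hI
  -- the subgroup
  let K : Subgroup H := cong I
  have hNK : commutator H ≤ K := commutator_le_cong I
  have hKn : K.Normal := Subgroup.Normal.of_commutator_le _ hNK
  have hit : it K (commutator H) n ≤ ⁅commutator H, commutator H⁆ := by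
    refine (it_le_pre I n).trans ?_
    rintro z ⟨hz, hz'⟩
    have h0 : idealMul (I ^ n) ≤ (⊥ : AddSubgroup (Mod H)) := by
      unfold idealMul
      rw [AddSubgroup.closure_le]
      rintro m ⟨r, hr, m', rfl⟩
      have : ringAct r = 0 := hn hr
      rw [this]
      exact rfl
    have h1 : cls ⟨z, hz⟩ = 0 := h0 hz'
    rw [cls_eq_zero] at h1
    rw [← commutator_commutator_eq]
    exact ⟨⟨z, hz⟩, h1, rfl⟩
  have hc : (commutator H).lowerCentralSeries (Group.nilpotencyClass (commutator H)) = ⊥ :=
    Subgroup.lowerCentralSeries_eq_bot_of_nilpotencyClass_le le_rfl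
  obtain ⟨T, hT⟩ := hall (commutator H) K (Subgroup.commutator_mono le_top le_top) hc hit
  refine ⟨K, Subgroup.isNilpotent_of_lowerCentralSeries_eq_bot hT, ?_⟩
  -- finite index
  have hcommQ : IsMulCommutative (H ⧸ K) :=
    Subgroup.Normal.quotient_commutative_iff_commutator_le.2 hNK
  letI : CommGroup (H ⧸ K) := { (inferInstance : Group (H ⧸ K)) with mul_comm := mul_comm' }
  have htors : ∀ x : H, (QuotientGroup.mk' K x) ^ K₀ = 1 := by
    intro x
    have h1 : Subgroup.closure (S : Set H) ≤
        ((powMonoidHom K₀ : (H ⧸ K) →* (H ⧸ K)).ker).comap (QuotientGroup.mk' K) := by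
      rw [Subgroup.closure_le]
      intro y hy
      show (QuotientGroup.mk' K y) ^ K₀ = 1
      rw [← map_pow, QuotientGroup.mk'_apply, QuotientGroup.eq_one_iff]
      refine Ideal.subset_span ?_
      rw [Finset.mem_coe, Finset.mem_image]
      exact ⟨y, hy, rfl⟩
    have h2 : x ∈ Subgroup.closure (S : Set H) := by rw [hS]; trivial
    exact h1 h2
  have hfin : Finite (H ⧸ K) := by
    refine CommGroup.finite_of_fg_isMulTorsion _ fun g => ?_
    obtain ⟨x, rfl⟩ := QuotientGroup.mk'_surjective K g
    rw [isOfFinOrder_iff_pow_eq_one]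
    exact ⟨K₀, hK₀, htors x⟩
  exact Subgroup.finiteIndex_of_finite_quotient

end Pool.Agent.Helper86.SSP
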