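import Mathlib
import Pool.Agent.Helper86.SSP.VN
import Pool.Agent.Helper86.SSP.Collect
import Pool.Agent.Helper86.SSP.Alg
import Pool.Agent.Helper86.Sync.Red

/-!
# Exact cover as a subset sum problem in a nilpotent-by-abelian group
-/

open scoped commutatorElement
open Pool.Agent.Helper86.Sync

namespace Pool.Agent.Helper86.SSP

section words

variable {G : Type*} [Group G] {ι : Type*}

/-- The inverse word. -/
def invW (w : List (ι × Bool)) : List (ι × Bool) := (w.map fun l => (l.1, !l.2)).reverse

lemma wv_invW (b : ι → G) (w : List (ι × Bool)) : wv b (invW w) = (wv b w)⁻¹ := by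
  induction w with
  | nil => simp [wv, invW]
  | cons l w ih =>
    have h1 : invW (l :: w) = invW w ++ [(l.1, !l.2)] := by simp [invW]
    rw [h1, wv_append, ih, wv_cons, wv_cons, mul_inv_rev]
    obtain ⟨i, s⟩ := l
    cases s <;> simp [wv, lv]

lemma count_invW [DecidableEq ι] (w : List (ι × Bool)) (i : ι) (s : Bool) :
    (invW w).count (i, s) = w.count (i, !s) := by
  unfold invW
  rw [List.count_reverse]
  induction w with
  | nil => rfl
  | cons l w ih =>
    rw [List.map_cons, List.count_cons, List.count_cons, ih]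
    congr 1
    obtain ⟨j, t⟩ := l
    cases s <;> cases t <;> simp

/-- Two words with the same exponent sums differ by a short product of commutators. -/
theorem mul_inv_mem [DecidableEq ι] {b : ι → G} {c : ℕ} (hc : ∀ g ∈ Com b c, g = 1)
    (hc1 : 1 ≤ c) (n : ℕ) (u v : List (ι × Bool)) (hn : u.length + v.length ≤ n)
    (h : ∀ i, u.count (i, true) + v.count (i, false) = v.count (i, true) + u.count (i, false)) :
    wv b u * (wv b v)⁻¹ ∈ SP (ComSet b c) (n * (n * (n + 1) ^ c)) := by
  rw [← wv_invW, ← wv_append]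
  refine balanced_mem hc hc1 n _ ?_ fun i => ?_
  · simpa [invW] using hn
  · rw [List.count_append, List.count_append, count_invW, count_invW]
    simp only [Bool.not_true, Bool.not_false]
    rw [h i]
    ring

end words

variable {H : Type*} [Group H] (x z : H)

/-- The translates of `z`. -/
def bb (q : ℕ) : H := x ^ q * z * (x ^ q)⁻¹

/-- The truncated sequence of translates. -/
def bt (Q q : ℕ) : H := if q < Q then bb x z q else 1

/-- All letters. -/
def letters (Q : ℕ) : List H := (List.range (Q + 1)).flatMap fun q => [bt x z Q q, (bt x z Q q)⁻¹]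

/-- The left-normed commutators of `w + 1` letters. -/
def comL (Q : ℕ) : ℕ → List H
  | 0 => letters x z Q
  | w + 1 => (comL Q w).flatMap fun u => (letters x z Q).flatMap fun y => [⁅u, y⁆, ⁅y, u⁆]

/-- The left-normed commutators of between `2` and `c` letters. -/
def comAll (Q c : ℕ) : List H := (List.range (c - 1)).flatMap fun w => comL x z Q (w + 1)

variable {x z}

lemma lv_mem_letters (Q : ℕ) (l : ℕ × Bool) : lv (bt x z Q) l ∈ letters x z Q := by
  obtain ⟨q, s⟩ := l
  unfold letters
  rw [List.mem_flatMap]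
  by_cases hq : q < Q
  · refine ⟨q, List.mem_range.2 (by omega), ?_⟩
    cases s <;> simp [lv]
  · refine ⟨Q, List.mem_range.2 (by omega), ?_⟩
    cases s <;> simp [lv, bt, hq]

lemma com_mem_comL (Q : ℕ) : ∀ (w : ℕ) (g : H), g ∈ Com (bt x z Q) w → g ∈ comL x z Q w := by
  intro w
  induction w with
  | zero => rintro g ⟨l, rfl⟩; exact lv_mem_letters Q l
  | succ w ih =>
    rintro g ⟨u, hu, l, h⟩
    unfold comL
    rw [List.mem_flatMap]
    refine ⟨u, ih u hu, ?_⟩
    rw [List.mem_flatMap]
    refine ⟨_, lv_mem_letters Q l, ?_⟩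
    rcases h with rfl | rfl <;> simp

lemma comSet_mem_comAll {Q c : ℕ} {g : H} (hg : g ∈ ComSet (bt x z Q) c) :
    g ∈ comAll x z Q c := by
  obtain ⟨w, h1, h2, h3⟩ := hg
  unfold comAll
  rw [List.mem_flatMap]
  refine ⟨w - 1, List.mem_range.2 (by omega), ?_⟩
  have : w - 1 + 1 = w := by omega
  rw [this]
  exact com_mem_comL Q w g h3

variable (hz : z ∈ commutator H)

include hz in
lemma bb_mem (q : ℕ) : bb x z q ∈ commutator H := Subgroup.Normal.conj_mem inferInstance z hz _

include hz in
lemma bt_mem (Q q : ℕ) : bt x z Q q ∈ commutator H := by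
  unfold bt
  split_ifs
  · exact bb_mem hz q
  · exact one_mem _

include hz in
lemma letters_mem {Q : ℕ} {g : H} (hg : g ∈ letters x z Q) : g ∈ commutator H := by
  unfold letters at hg
  rw [List.mem_flatMap] at hg
  obtain ⟨q, _, hg⟩ := hg
  simp only [List.mem_cons, List.not_mem_nil, or_false] at hg
  rcases hg with rfl | rfl
  · exact bt_mem hz Q q
  · exact inv_mem (bt_mem hz Q q)

include hz in
lemma comL_mem {Q : ℕ} : ∀ (w : ℕ) (g : H), g ∈ comL x z Q w →
    g ∈ (commutator H).lowerCentralSeries w := by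
  intro w
  induction w with
  | zero => intro g hg; exact letters_mem hz hg
  | succ w ih =>
    intro g hg
    unfold comL at hg
    rw [List.mem_flatMap] at hg
    obtain ⟨u, hu, hg⟩ := hg
    rw [List.mem_flatMap] at hg
    obtain ⟨y, hy, hg⟩ := hg
    simp only [List.mem_cons, List.not_mem_nil, or_false] at hg
    have h1 : ⁅u, y⁆ ∈ (commutator H).lowerCentralSeries (w + 1) :=
      Subgroup.commutator_mem_commutator (ih u hu) (letters_mem hz hy)
    rcases hg with rfl | rfl
    · exact h1
    · rw [← commutatorElement_inv]; exact inv_mem h1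

include hz in
lemma comAll_mem {Q c : ℕ} {g : H} (hg : g ∈ comAll x z Q c) :
    g ∈ ⁅commutator H, commutator H⁆ := by
  unfold comAll at hg
  rw [List.mem_flatMap] at hg
  obtain ⟨w, _, hg⟩ := hg
  have h1 := comL_mem hz (w + 1) g hg
  have h2 : (commutator H).lowerCentralSeries (w + 1) ≤ (commutator H).lowerCentralSeries 1 :=
    Subgroup.lowerCentralSeries_antitone _ (by omega)
  exact h2 h1

include hz in
lemma com_eq_one {Q c : ℕ} (hc : (commutator H).lowerCentralSeries c = ⊥) :
    ∀ g ∈ Com (bt x z Q) c, g = 1 := by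
  intro g hg
  have h := comL_mem hz c g (com_mem_comL Q c g hg)
  rw [hc] at h
  exact h

open Classical in
/-- The class of an element of the group (zero outside the derived subgroup). -/
noncomputable def cl (g : H) : Mod H := if h : g ∈ commutator H then cls ⟨g, h⟩ else 0

lemma cl_of_mem {g : H} (h : g ∈ commutator H) : cl g = cls ⟨g, h⟩ := dif_pos h

lemma cl_mul {g h : H} (hg : g ∈ commutator H) (hh : h ∈ commutator H) :
    cl (g * h) = cl g + cl h := by
  rw [cl_of_mem hg, cl_of_mem hh, cl_of_mem (mul_mem hg hh), ← cls_mul]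
  rfl

lemma cl_one : cl (1 : H) = 0 := by rw [cl_of_mem (one_mem _)]; exact cls_one

lemma cl_inv {g : H} (hg : g ∈ commutator H) : cl g⁻¹ = -cl g := by
  rw [cl_of_mem hg, cl_of_mem (inv_mem hg), ← cls_inv]
  rfl

include hz in
lemma cl_bb (q : ℕ) : cl (bb x z q) = (act x ^ q) (cl z) := by
  rw [cl_of_mem hz, cl_of_mem (bb_mem hz q), ← act_pow, act_cls]
  congr 1

lemma cl_of_mem_commutator {g : H} (hg : g ∈ ⁅commutator H, commutator H⁆) : cl g = 0 := by
  rw [← commutator_commutator_eq] at hg
  obtain ⟨w, hw, rfl⟩ := hg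
  show cl (w : H) = 0
  rw [cl_of_mem w.2]
  exact cls_eq_zero.2 hw

lemma cl_list_prod {l : List H} (h : ∀ g ∈ l, g ∈ commutator H) :
    l.prod ∈ commutator H ∧ cl l.prod = (l.map cl).sum := by
  induction l with
  | nil => exact ⟨one_mem _, cl_one⟩
  | cons a l ih =>
    have h1 := ih fun g hg => h g (List.mem_cons_of_mem _ hg)
    have h2 := h a List.mem_cons_self
    rw [List.prod_cons, List.map_cons, List.sum_cons]
    exact ⟨mul_mem h2 h1.1, by rw [cl_mul h2 h1.1, h1.2]⟩

lemma cl_list_zero {l : List H} (h : ∀ g ∈ l, g ∈ ⁅commutator H, commutator H⁆) :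
    l.prod ∈ commutator H ∧ cl l.prod = 0 := by
  have h1 : l.prod ∈ ⁅commutator H, commutator H⁆ := Subgroup.list_prod_mem _ h
  exact ⟨Subgroup.commutator_le_self _ h1, cl_of_mem_commutator h1⟩

variable (x z) in
/-- The product of the translates at a list of positions. -/
def pB (ps : List ℕ) : H := (ps.map (bb x z)).prod

lemma pB_append (ps qs : List ℕ) : pB x z (ps ++ qs) = pB x z ps * pB x z qs := by simp [pB]

lemma pB_eq_wv {Q : ℕ} {ps : List ℕ} (h : ∀ q ∈ ps, q < Q) :
    pB x z ps = wv (bt x z Q) (ps.map fun q => (q, true)) := by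
  unfold pB wv
  rw [List.map_map]
  congr 1
  refine List.map_congr_left fun q hq => ?_
  simp [lv, bt, h q hq]

include hz in
lemma cl_pB (ps : List ℕ) : pB x z ps ∈ commutator H ∧
    cl (pB x z ps) = (ps.map fun q => (act x ^ q) (cl z)).sum := by
  have h := cl_list_prod (l := ps.map (bb x z)) (by
    intro g hg
    obtain ⟨q, _, rfl⟩ := List.mem_map.1 hg
    exact bb_mem hz q)
  refine ⟨h.1, ?_⟩
  unfold pB
  rw [h.2, List.map_map]
  congr 1
  exact List.map_congr_left fun q _ => cl_bb hz q

/-- The number of commutators needed. -/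
def bnd (c n : ℕ) : ℕ := n * (n * (n + 1) ^ c)

variable (x z) in
/-- The list of repeated commutators. -/
def rep (c Q n : ℕ) : List H := (List.replicate (bnd c n) (comAll x z Q c)).flatten

include hz in
lemma rep_mem {c Q n : ℕ} {g : H} (hg : g ∈ rep x z c Q n) :
    g ∈ ⁅commutator H, commutator H⁆ := by
  unfold rep at hg
  rw [List.mem_flatten] at hg
  obtain ⟨l, hl, hg⟩ := hg
  rw [List.mem_replicate] at hl
  rw [hl.2] at hg
  exact comAll_mem hz hg

include hz in
/-- Equal exponent sums: the quotient is the product of a sublist of `rep`. -/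
lemma exists_rep {c Q n : ℕ} (hc : (commutator H).lowerCentralSeries c = ⊥) (hc1 : 1 ≤ c)
    (u v : List (ℕ × Bool)) (hn : u.length + v.length ≤ n)
    (h : ∀ i, u.count (i, true) + v.count (i, false) = v.count (i, true) + u.count (i, false)) :
    ∃ l : List H, l.Sublist (rep x z c Q n) ∧
      l.prod = wv (bt x z Q) u * (wv (bt x z Q) v)⁻¹ :=
  exists_sublist_of_mem_SP (fun _ ha => comSet_mem_comAll ha) _ _
    (mul_inv_mem (com_eq_one hz hc) hc1 n u v hn h)

end Pool.Agent.Helper86.SSP
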