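import Mathlib
import Pool.Agent.Helper86.SSP.Sem

/-!
# The first reduction
-/

open scoped commutatorElement
open Pool.Agent.Helper86.Sync

namespace Pool.Agent.Helper86.SSP

/-- The elements of the `i`-th set. -/
def row (m : ℕ) (inc : ℕ → ℕ → Bool) (i : ℕ) : List ℕ := (List.range m).filter (inc i)

lemma mem_row {m : ℕ} {inc : ℕ → ℕ → Bool} {i j : ℕ} :
    j ∈ row m inc i ↔ j < m ∧ inc i j = true := by
  simp [row]

lemma count_row (m : ℕ) (inc : ℕ → ℕ → Bool) (i j : ℕ) :
    (row m inc i).count j = if j < m ∧ inc i j = true then 1 else 0 := by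
  have hnd : (row m inc i).Nodup := List.nodup_range.filter _
  rw [hnd.count]
  simp only [mem_row]

/-- The number of chosen sets that contain `j`. -/
def cov (inc : ℕ → ℕ → Bool) (I : List ℕ) (j : ℕ) : ℕ := (I.filter fun i => inc i j).length

lemma cov_cons (inc : ℕ → ℕ → Bool) (i : ℕ) (I : List ℕ) (j : ℕ) :
    cov inc (i :: I) j = (if inc i j then 1 else 0) + cov inc I j := by
  unfold cov
  rw [List.filter_cons]
  split_ifs
  · rw [List.length_cons]; omega
  · omega

lemma cov_le (inc : ℕ → ℕ → Bool) (I : List ℕ) (j : ℕ) : cov inc I j ≤ I.length :=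
  List.length_filter_le _ _

/-- Sublists of `range n` that cover exactly once. -/
lemma xci_iff_cov (n m : ℕ) (inc : ℕ → ℕ → Bool) :
    XCi n m inc ↔ ∃ I : List ℕ, I.Sublist (List.range n) ∧ ∀ j < m, cov inc I j = 1 := by
  classical
  have key : ∀ (I : List ℕ) (c : ℕ → Bool), I.Nodup → (∀ i, i ∈ I ↔ i < n ∧ c i = true) →
      ∀ j, cov inc I j = ∑ i ∈ Finset.range n, (if inc i j && c i then 1 else 0) := by
    intro I c hnd hI j
    rw [Finset.sum_ite, Finset.sum_const_zero, add_zero, Finset.sum_const, smul_eq_mul, mul_one]
    unfold cov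
    rw [← List.toFinset_card_of_nodup (hnd.filter _)]
    congr 1
    ext i
    simp only [List.mem_toFinset, List.mem_filter, Finset.mem_filter, Finset.mem_range, hI,
      Bool.and_eq_true]
    tauto
  constructor
  · rintro ⟨c, hc⟩
    refine ⟨(List.range n).filter c, List.filter_sublist, fun j hj => ?_⟩
    rw [key _ c (List.nodup_range.filter _) (by simp) j]
    exact hc j hj
  · rintro ⟨I, hI, hc⟩
    refine ⟨fun i => decide (i ∈ I), fun j hj => ?_⟩
    rw [← key I _ (List.nodup_range.sublist hI) ?_ j]
    · exact hc j hj
    · intro i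
      simp only [decide_eq_true_eq]
      exact ⟨fun h => ⟨List.mem_range.1 (hI.subset h), h⟩, fun h => h.2⟩

/-- Sum over the rows of the chosen sets. -/
lemma sum_rows {M : Type*} [AddCommGroup M] (m : ℕ) (inc : ℕ → ℕ → Bool) (f : ℕ → M)
    (I : List ℕ) : (I.map fun i => ((row m inc i).map f).sum).sum =
      ∑ j ∈ Finset.range m, cov inc I j • f j := by
  induction I with
  | nil => simp [cov]
  | cons i I ih =>
    rw [List.map_cons, List.sum_cons, ih]
    have h1 : ((row m inc i).map f).sum =
        ∑ j ∈ Finset.range m, (if inc i j then 1 else 0 : ℕ) • f j := by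
      unfold row
      clear ih
      induction m with
      | zero => simp
      | succ m ih =>
        rw [List.range_succ, List.filter_append, List.map_append, List.sum_append, ih,
          Finset.sum_range_succ]
        congr 1
        by_cases h : inc i m <;> simp [h]
    rw [h1, ← Finset.sum_add_distrib]
    refine Finset.sum_congr rfl fun j _ => ?_
    rw [cov_cons, add_smul]

lemma sum_map_range {M : Type*} [AddCommMonoid M] (m : ℕ) (f : ℕ → M) :
    ((List.range m).map f).sum = ∑ j ∈ Finset.range m, f j := by
  induction m with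
  | zero => simp
  | succ m ih => rw [List.range_succ, List.map_append, List.sum_append, ih,
      Finset.sum_range_succ]; simp

/-- An exact cover lists every element once. -/
lemma perm_of_cov {m : ℕ} {inc : ℕ → ℕ → Bool} {I : List ℕ} (h : ∀ j < m, cov inc I j = 1) :
    (I.flatMap (row m inc)).Perm (List.range m) := by
  have hcount : ∀ (I : List ℕ) (j : ℕ), (I.flatMap (row m inc)).count j =
      if j < m then cov inc I j else 0 := by
    intro I j
    induction I with
    | nil => simp [cov]
    | cons i I ih =>
      rw [List.flatMap_cons, List.count_append, ih, count_row, cov_cons]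
      by_cases h1 : j < m <;> by_cases h2 : inc i j = true <;> simp [h1, h2]
  rw [List.perm_iff_count]
  intro j
  rw [hcount, List.nodup_range.count]
  simp only [List.mem_range]
  split_ifs with hj
  · exact h j hj
  · rfl

variable {H : Type*} [Group H] (x z : H)

/-- The element that belongs to the `i`-th set. -/
def setA (m L : ℕ) (inc : ℕ → ℕ → Bool) (i : ℕ) : H := pB x z ((row m inc i).map (· * L))

/-- The instance. -/
def itemsA (c n m L : ℕ) (inc : ℕ → ℕ → Bool) : List H :=
  rep x z c (m * L) (2 * m) ++ (List.range n).map (setA x z m L inc)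

/-- The target. -/
def targetA (m L : ℕ) : H := pB x z ((List.range m).map (· * L))

variable {x z}

/-- **The first reduction is correct.** -/
theorem semA (hz : z ∈ commutator H) {c : ℕ} (hc : (commutator H).lowerCentralSeries c = ⊥)
    (hc1 : 1 ≤ c) {κ : ℕ} (hκ : ∀ (C L : ℕ), κ * (C + 1) ≤ L → ∀ (m : ℕ) (c : ℕ → ℤ),
      (∀ j, |c j| ≤ (C : ℤ)) → ∑ j ∈ Finset.range m, c j • (act x ^ (j * L)) (cl z) = 0 →
        ∀ j < m, c j = 0) (n m L : ℕ) (hL : κ * (n + 2) ≤ L) (hL0 : 0 < L)
    (inc : ℕ → ℕ → Bool) :
    (∃ l : List H, l.Sublist (itemsA x z c n m L inc) ∧ l.prod = targetA x z m L) ↔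
      XCi n m inc := by
  rw [xci_iff_cov]
  constructor
  · rintro ⟨l, hl, hprod⟩
    unfold itemsA at hl
    rw [List.sublist_append_iff] at hl
    obtain ⟨l₁, l₂, rfl, h1, h2⟩ := hl
    rw [List.sublist_map_iff] at h2
    obtain ⟨I, hI, rfl⟩ := h2
    refine ⟨I, hI, ?_⟩
    have e1 := cl_list_zero (l := l₁) fun g hg => rep_mem hz (h1.subset hg)
    have e2 := cl_list_prod (l := I.map (setA x z m L inc)) (by
      intro g hg
      obtain ⟨i, _, rfl⟩ := List.mem_map.1 hg
      exact (cl_pB hz _).1)
    have e3 := cl_pB (x := x) hz ((List.range m).map (· * L))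
    have h3 := congrArg cl hprod
    rw [List.prod_append, cl_mul e1.1 e2.1, e1.2, e2.2, zero_add, List.map_map] at h3
    have h4 : (I.map (cl ∘ setA x z m L inc)).sum =
        (I.map fun i => ((row m inc i).map fun j => (act x ^ (j * L)) (cl z)).sum).sum := by
      congr 1
      refine List.map_congr_left fun i _ => ?_
      show cl (pB x z _) = _
      rw [(cl_pB hz _).2, List.map_map]
      rfl
    rw [h4, sum_rows] at h3
    have h5 : cl (targetA x z m L) = ∑ j ∈ Finset.range m, (1 : ℤ) • (act x ^ (j * L)) (cl z) := by
      show cl (pB x z _) = _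
      rw [e3.2, List.map_map, sum_map_range]
      exact Finset.sum_congr rfl fun j _ => (one_smul _ _).symm
    rw [h5] at h3
    have h6 : ∑ j ∈ Finset.range m, (((cov inc I j : ℕ) : ℤ) - 1) • (act x ^ (j * L)) (cl z) = 0 := by
      simp only [sub_smul, Finset.sum_sub_distrib, natCast_zsmul]
      rw [h3, sub_self]
    intro j hj
    have hlen : I.length ≤ n := by simpa using hI.length_le
    have h7 := hκ (n + 1) L hL m _ (fun j => by
      have := cov_le inc I j
      rw [abs_le]
      constructor <;> push_cast <;> omega) h6 j hj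
    omega
  · rintro ⟨I, hI, hcov⟩
    have hperm := perm_of_cov hcov
    have hlt : ∀ q ∈ (List.range m).map (· * L), q < m * L := by
      intro q hq
      obtain ⟨j, hj, rfl⟩ := List.mem_map.1 hq
      exact (Nat.mul_lt_mul_right hL0).2 (List.mem_range.1 hj)
    have hperm' := hperm.map (· * L)
    have hlt' : ∀ q ∈ (I.flatMap (row m inc)).map (· * L), q < m * L := fun q hq =>
      hlt q (hperm'.subset hq)
    obtain ⟨l₁, h1, h2⟩ := exists_rep (x := x) (Q := m * L) (n := 2 * m) hz hc hc1
      (((List.range m).map (· * L)).map fun q => (q, true))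
      (((I.flatMap (row m inc)).map (· * L)).map fun q => (q, true))
      (by
        simp only [List.length_map, List.length_range, hperm.length_eq]
        omega)
      (by
        intro i
        have e1 : ∀ ps : List ℕ, (ps.map fun q => (q, true)).count (i, false) = 0 := by
          intro ps
          rw [List.count_eq_zero]
          simp
        have e2 : ((((List.range m).map (· * L)).map fun q => (q, true))).count (i, true) =
            ((((I.flatMap (row m inc)).map (· * L)).map fun q => (q, true))).count (i, true) :=
          (hperm'.symm.map _).count_eq _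
        rw [e1, e1, e2])
    refine ⟨l₁ ++ I.map (setA x z m L inc), ?_, ?_⟩
    · exact h1.append (hI.map _)
    · have h3 : (I.map (setA x z m L inc)).prod =
          pB x z ((I.flatMap (row m inc)).map (· * L)) := by
        clear hperm hperm' hcov hlt' h1 h2 hI
        induction I with
        | nil => rfl
        | cons i I ih =>
          rw [List.map_cons, List.prod_cons, ih, List.flatMap_cons, List.map_append, pB_append]
          rfl
      rw [List.prod_append, h2, h3, pB_eq_wv hlt', inv_mul_cancel_right, ← pB_eq_wv hlt]
      rfl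

end Pool.Agent.Helper86.SSP
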