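import Mathlib
import Pool.Agent.Helper86.SSP.SemA

/-!
# The second reduction
-/

open scoped commutatorElement
open Pool.Agent.Helper86.Sync

namespace Pool.Agent.Helper86.SSP

variable {H : Type*} [Group H] (x z : H)

/-- The element that belongs to the `i`-th set. -/
def setB (m L : ℕ) (inc : ℕ → ℕ → Bool) (i : ℕ) : H :=
  pB x z ((row m inc i).map (· * L)) * x ^ (row m inc i).length

/-- The cleaning elements. -/
def clean (m L : ℕ) : List H :=
  (List.range m).flatMap fun j => (List.range L).map fun σ => (bb x z (j * L + σ))⁻¹ * bb x z (j * L)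

/-- The instance. -/
def itemsB (c n m L : ℕ) (inc : ℕ → ℕ → Bool) : List H :=
  rep x z c (m * L) (4 * m) ++ (clean x z m L ++ (List.range n).map (setB x z m L inc))

/-- The target. -/
def targetB (m L : ℕ) : H := pB x z ((List.range m).map (· * L)) * x ^ m

/-- The total of the sizes of the chosen sets. -/
def tot (m : ℕ) (inc : ℕ → ℕ → Bool) (I : List ℕ) : ℕ := (I.map fun i => (row m inc i).length).sum

/-- The positions of the translates in the product of the chosen sets. -/
def poss (m L : ℕ) (inc : ℕ → ℕ → Bool) : List ℕ → ℕ → List ℕ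
  | [], _ => []
  | i :: I, e => (row m inc i).map (fun j => j * L + e) ++ poss m L inc I (e + (row m inc i).length)

variable {x z}

lemma pow_mul_pB (e : ℕ) (ps : List ℕ) :
    x ^ e * pB x z ps = pB x z (ps.map (· + e)) * x ^ e := by
  induction ps with
  | nil => simp [pB]
  | cons q ps ih =>
    have h1 : ∀ (q : ℕ) (ps : List ℕ), pB x z (q :: ps) = bb x z q * pB x z ps := by
      intro q ps; simp [pB]
    have h2 : x ^ e * bb x z q = bb x z (q + e) * x ^ e := by
      unfold bb
      have : x ^ (q + e) = x ^ e * x ^ q := by rw [← pow_add, add_comm]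
      rw [this]
      group
    rw [h1, List.map_cons, h1, ← mul_assoc, h2, mul_assoc, ih, mul_assoc]

lemma pow_mul_prod_setB (m L : ℕ) (inc : ℕ → ℕ → Bool) (I : List ℕ) : ∀ e : ℕ,
    x ^ e * (I.map (setB x z m L inc)).prod =
      pB x z (poss m L inc I e) * x ^ (e + tot m inc I) := by
  induction I with
  | nil => intro e; simp [poss, tot, pB]
  | cons i I ih =>
    intro e
    rw [List.map_cons, List.prod_cons]
    have h1 : x ^ e * (setB x z m L inc i * (I.map (setB x z m L inc)).prod) =
        pB x z ((row m inc i).map fun j => j * L + e) *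
          (x ^ (e + (row m inc i).length) * (I.map (setB x z m L inc)).prod) := by
      unfold setB
      rw [← mul_assoc, ← mul_assoc, pow_mul_pB, List.map_map, pow_add]
      simp only [mul_assoc]
      rfl
    rw [h1, ih, ← mul_assoc, ← pB_append]
    have h2 : e + (row m inc i).length + tot m inc I = e + tot m inc (i :: I) := by
      simp only [tot, List.map_cons, List.sum_cons]
      omega
    rw [h2]
    rfl

/-- Linear combinations of translates. -/
noncomputable def lc (x z : H) (Q : ℕ) (f : ℕ → ℤ) : Mod H :=
  ∑ q ∈ Finset.range Q, f q • (act x ^ q) (cl z)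

lemma lc_add (Q : ℕ) (f g : ℕ → ℤ) : lc x z Q (fun q => f q + g q) = lc x z Q f + lc x z Q g := by
  unfold lc
  rw [← Finset.sum_add_distrib]
  exact Finset.sum_congr rfl fun q _ => add_smul _ _ _

lemma lc_sub (Q : ℕ) (f g : ℕ → ℤ) : lc x z Q (fun q => f q - g q) = lc x z Q f - lc x z Q g := by
  unfold lc
  rw [← Finset.sum_sub_distrib]
  exact Finset.sum_congr rfl fun q _ => sub_smul _ _ _

/-- The list sum as a linear combination. -/
lemma lc_count {Q : ℕ} {ps : List ℕ} (h : ∀ q ∈ ps, q < Q) :
    (ps.map fun q => (act x ^ q) (cl z)).sum = lc x z Q (fun q => (ps.count q : ℤ)) := by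
  induction ps with
  | nil => simp [lc]
  | cons p ps ih =>
    rw [List.map_cons, List.sum_cons, ih fun q hq => h q (List.mem_cons_of_mem _ hq)]
    have h1 : (act x ^ p) (cl z) = lc x z Q (fun q => if q = p then 1 else 0) := by
      unfold lc
      rw [Finset.sum_eq_single p]
      · simp
      · intro q _ hq; simp [hq]
      · intro hp
        exact absurd (Finset.mem_range.2 (h p List.mem_cons_self)) hp
    rw [h1, ← lc_add]
    unfold lc
    refine Finset.sum_congr rfl fun q _ => ?_
    congr 1
    beta_reduce
    rw [List.count_cons]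
    by_cases hq : q = p
    · subst hq; simp; ring
    · have : (p == q) = false := by simpa using fun h => hq h.symm
      simp [this, hq]

/-- The sum over a block. -/
def blk (L : ℕ) (f : ℕ → ℤ) (j : ℕ) : ℤ := ∑ σ ∈ Finset.range L, f (j * L + σ)

lemma blk_add (L : ℕ) (f g : ℕ → ℤ) (j : ℕ) :
    blk L (fun q => f q + g q) j = blk L f j + blk L g j := Finset.sum_add_distrib

lemma blk_sub (L : ℕ) (f g : ℕ → ℤ) (j : ℕ) :
    blk L (fun q => f q - g q) j = blk L f j - blk L g j := Finset.sum_sub_distrib _ _

/-- The blocks are disjoint. -/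
lemma block_eq {L j j' σ σ' : ℕ} (h1 : σ < L) (h2 : σ' < L) (h : j * L + σ = j' * L + σ') :
    j = j' ∧ σ = σ' := by
  have e1 : (j * L + σ) / L = j := by
    rw [Nat.mul_comm, Nat.mul_add_div (by omega), Nat.div_eq_of_lt h1, Nat.add_zero]
  have e2 : (j' * L + σ') / L = j' := by
    rw [Nat.mul_comm, Nat.mul_add_div (by omega), Nat.div_eq_of_lt h2, Nat.add_zero]
  have e3 : j = j' := by rw [← e1, ← e2, h]
  subst e3
  exact ⟨rfl, by omega⟩

lemma blk_row {L e : ℕ} (he : e < L) (m : ℕ) (inc : ℕ → ℕ → Bool) (i j : ℕ) (hj : j < m) :
    blk L (fun q => (((row m inc i).map fun j => j * L + e).count q : ℤ)) j =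
      if inc i j then 1 else 0 := by
  unfold blk
  rw [Finset.sum_eq_single e]
  · have h1 : (((row m inc i).map fun j => j * L + e).count (j * L + e)) =
        (row m inc i).count j := by
      refine List.count_map_of_injective _ (fun j => j * L + e) (fun a b hab => ?_) j
      exact (block_eq he he hab).1
    beta_reduce
    rw [h1, count_row]
    by_cases h : inc i j = true <;> simp [h, hj]
  · intro σ hσ hne
    have : (((row m inc i).map fun j => j * L + e).count (j * L + σ)) = 0 := by
      rw [List.count_eq_zero, List.mem_map]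
      rintro ⟨j', _, h⟩
      exact hne (block_eq he (Finset.mem_range.1 hσ) h).2.symm
    beta_reduce
    rw [this]; rfl
  · intro h; exact absurd (Finset.mem_range.2 he) h

lemma blk_poss {L m : ℕ} (inc : ℕ → ℕ → Bool) (j : ℕ) (hj : j < m) (I : List ℕ) : ∀ e : ℕ,
    e + tot m inc I < L →
    blk L (fun q => ((poss m L inc I e).count q : ℤ)) j = cov inc I j := by
  induction I with
  | nil => intro e _; simp [poss, blk, cov]
  | cons i I ih =>
    intro e he
    have h0 : tot m inc (i :: I) = (row m inc i).length + tot m inc I := by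
      simp [tot]
    have h1 : (fun q => ((poss m L inc (i :: I) e).count q : ℤ)) =
        fun q => (((row m inc i).map fun j => j * L + e).count q : ℤ) +
          ((poss m L inc I (e + (row m inc i).length)).count q : ℤ) := by
      funext q
      rw [poss, List.count_append]
      push_cast
      rfl
    rw [h1, blk_add, blk_row (by omega) m inc i j hj, ih _ (by omega), cov_cons]
    by_cases h : inc i j = true <;> simp [h]

lemma poss_lt {L m : ℕ} (inc : ℕ → ℕ → Bool) (I : List ℕ) : ∀ e : ℕ,
    e + tot m inc I < L → ∀ q ∈ poss m L inc I e, q < m * L := by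
  induction I with
  | nil => intro e _ q hq; simp [poss] at hq
  | cons i I ih =>
    intro e he q hq
    have h0 : tot m inc (i :: I) = (row m inc i).length + tot m inc I := by
      simp [tot]
    rw [poss, List.mem_append] at hq
    rcases hq with h | h
    · obtain ⟨j, hj, rfl⟩ := List.mem_map.1 h
      have hjm := (mem_row.1 hj).1
      calc j * L + e < j * L + L := by omega
        _ = (j + 1) * L := by ring
        _ ≤ m * L := Nat.mul_le_mul_right _ hjm
    · exact ih _ (by omega) q h

lemma tot_eq (m : ℕ) (inc : ℕ → ℕ → Bool) (I : List ℕ) :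
    tot m inc I = ∑ j ∈ Finset.range m, cov inc I j := by
  have h := sum_rows (M := ℤ) m inc (fun _ => (1 : ℤ)) I
  have h1 : (I.map fun i => ((row m inc i).map fun _ => (1 : ℤ)).sum).sum = (tot m inc I : ℤ) := by
    unfold tot
    induction I with
    | nil => rfl
    | cons i I ih =>
      rw [List.map_cons, List.sum_cons, ih (sum_rows _ _ _ _), List.map_cons, List.sum_cons]
      push_cast
      congr 1
      simp
  rw [h1] at h
  have h2 : ((tot m inc I : ℕ) : ℤ) = ((∑ j ∈ Finset.range m, cov inc I j : ℕ) : ℤ) := by
    rw [h]; push_cast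
    exact Finset.sum_congr rfl fun j _ => by simp
  exact_mod_cast h2

/-- Powers of `x` outside the derived subgroup. -/
lemma pow_notMem {p : ℕ} (hp : p.Prime)
    (hB : ∀ (m : ℕ) (c : ℕ → ℤ),
      ∑ j ∈ Finset.range m, c j • (act x ^ j) (cl z) = 0 → ∀ j < m, (p : ℤ) ∣ c j)
    {k : ℕ} (hk : 0 < k) : x ^ k ∉ commutator H := by
  intro h
  have h1 : act x ^ k = 1 := by rw [← act_pow]; exact act_of_mem h
  have h2 := hB (k + 1) (fun j => if j = 0 then 1 else if j = k then -1 else 0) (by
    rw [Finset.sum_range_succ, Finset.sum_eq_single 0]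
    · simp [h1, hk.ne']
    · intro j hj hj0
      have : j ≠ k := by have := Finset.mem_range.1 hj; omega
      simp [hj0, this]
    · intro h0; exact absurd (Finset.mem_range.2 hk) h0) 0 (by omega)
  simp only [if_pos] at h2
  have := Int.eq_one_of_dvd_one (by positivity) h2
  exact hp.one_lt.ne' (by exact_mod_cast this)

/-- The indicator of a position. -/
def dl (p q : ℕ) : ℤ := if q = p then 1 else 0

lemma lc_dl {Q p : ℕ} (hp : p < Q) : lc x z Q (dl p) = (act x ^ p) (cl z) := by
  unfold lc dl
  rw [Finset.sum_eq_single p]
  · simp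
  · intro q _ hq; simp [hq]
  · intro h; exact absurd (Finset.mem_range.2 hp) h

lemma blk_dl {L j σ : ℕ} (hσ : σ < L) (j' : ℕ) :
    blk L (dl (j * L + σ)) j' = if j' = j then 1 else 0 := by
  unfold blk dl
  by_cases h : j' = j
  · subst h
    rw [Finset.sum_eq_single σ]
    · simp
    · intro σ' _ hne
      rw [if_neg]
      intro h
      exact hne (by omega)
    · intro h; exact absurd (Finset.mem_range.2 hσ) h
  · rw [if_neg h]
    refine Finset.sum_eq_zero fun σ' hσ' => ?_
    rw [if_neg]
    intro h'
    exact h (block_eq (Finset.mem_range.1 hσ') hσ h').1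

lemma clean_prop (hz : z ∈ commutator H) {m L : ℕ} {l : List H} (hl : ∀ g ∈ l, g ∈ clean x z m L) :
    l.prod ∈ commutator H ∧ ∃ f : ℕ → ℤ, cl l.prod = lc x z (m * L) f ∧
      ∀ j < m, blk L f j = 0 := by
  induction l with
  | nil => exact ⟨one_mem _, fun _ => 0, by simp [lc, cl_one], fun j _ => by simp [blk]⟩
  | cons g l ih =>
    obtain ⟨h1, f, h2, h3⟩ := ih fun g' hg' => hl g' (List.mem_cons_of_mem _ hg')
    have hg := hl g List.mem_cons_self
    unfold clean at hg
    rw [List.mem_flatMap] at hg
    obtain ⟨j, hj, hg⟩ := hg
    obtain ⟨σ, hσ, rfl⟩ := List.mem_map.1 hg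
    rw [List.mem_range] at hj hσ
    have hgm : (bb x z (j * L + σ))⁻¹ * bb x z (j * L) ∈ commutator H :=
      mul_mem (inv_mem (bb_mem hz _)) (bb_mem hz _)
    rw [List.prod_cons]
    refine ⟨mul_mem hgm h1, fun q => (dl (j * L + 0) q - dl (j * L + σ) q) + f q, ?_, ?_⟩
    · have hlt : j * L + σ < m * L := by
        calc j * L + σ < j * L + L := by omega
          _ = (j + 1) * L := by ring
          _ ≤ m * L := Nat.mul_le_mul_right _ hj
      rw [cl_mul hgm h1, cl_mul (inv_mem (bb_mem hz _)) (bb_mem hz _), cl_inv (bb_mem hz _),
        cl_bb hz, cl_bb hz, lc_add, lc_sub, lc_dl hlt, lc_dl (by omega), h2, Nat.add_zero]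
      abel
    · intro j' hj'
      rw [blk_add, blk_sub, blk_dl hσ, blk_dl (by omega), h3 j' hj']
      ring

/-- The shifts at which the elements are covered. -/
lemma exists_shift {m L : ℕ} (inc : ℕ → ℕ → Bool) (I : List ℕ) : ∀ e : ℕ,
    (∀ j < m, cov inc I j ≤ 1) → e + tot m inc I < L →
    ∃ σ : ℕ → ℕ, (∀ j, σ j < L) ∧
      poss m L inc I e = (I.flatMap (row m inc)).map (fun j => j * L + σ j) := by
  induction I with
  | nil => intro e _ he; exact ⟨fun _ => 0, fun _ => by beta_reduce; omega, rfl⟩
  | cons i I ih =>
    intro e hcov he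
    have h0 : tot m inc (i :: I) = (row m inc i).length + tot m inc I := by
      simp [tot]
    obtain ⟨σ, h1, h2⟩ := ih (e + (row m inc i).length) (fun j hj => by
      have := hcov j hj
      rw [cov_cons] at this
      omega) (by omega)
    refine ⟨fun j => if inc i j then e else σ j, fun j => ?_, ?_⟩
    · beta_reduce
      split_ifs
      · omega
      · exact h1 j
    · rw [poss, h2, List.flatMap_cons, List.map_append]
      congr 1
      · refine List.map_congr_left fun j hj => ?_
        beta_reduce
        rw [if_pos (mem_row.1 hj).2]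
      · refine List.map_congr_left fun j hj => ?_
        beta_reduce
        rw [if_neg]
        intro hij
        obtain ⟨i', hi', hj'⟩ := List.mem_flatMap.1 hj
        have h3 := hcov j (mem_row.1 hj').1
        rw [cov_cons, if_pos hij] at h3
        have h4 : 0 < cov inc I j := by
          unfold cov
          rw [List.length_pos_iff_exists_mem]
          exact ⟨i', List.mem_filter.2 ⟨hi', (mem_row.1 hj').2⟩⟩
        omega

lemma count_pairs (l : List ℕ) (f g : ℕ → ℕ) (i : ℕ) :
    (l.flatMap fun j => [(f j, false), (g j, true)]).count (i, false) = (l.map f).count i ∧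
    (l.flatMap fun j => [(f j, false), (g j, true)]).count (i, true) = (l.map g).count i := by
  induction l with
  | nil => simp
  | cons a l ih =>
    rw [List.flatMap_cons, List.count_append, List.count_append, ih.1, ih.2, List.map_cons,
      List.map_cons, List.count_cons, List.count_cons]
    constructor
    · simp [List.count_cons]; omega
    · simp [List.count_cons]; omega

lemma count_map_true (ps : List ℕ) (i : ℕ) :
    (ps.map fun q => (q, true)).count (i, true) = ps.count i ∧
    (ps.map fun q => (q, true)).count (i, false) = 0 := by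
  constructor
  · exact List.count_map_of_injective ps (fun q : ℕ => (q, true)) (fun a b h => by simpa using h) i
  · rw [List.count_eq_zero]; simp

/-- **The second reduction is correct.** -/
theorem semB (hz : z ∈ commutator H) {c : ℕ} (hc : (commutator H).lowerCentralSeries c = ⊥)
    (hc1 : 1 ≤ c) {p : ℕ} (hp : p.Prime) (hB : ∀ (m : ℕ) (c : ℕ → ℤ),
      ∑ j ∈ Finset.range m, c j • (act x ^ j) (cl z) = 0 → ∀ j < m, (p : ℤ) ∣ c j)
    (n m : ℕ) (inc : ℕ → ℕ → Bool) :
    (∃ l : List H, l.Sublist (itemsB x z c n m (m + 1) inc) ∧ l.prod = targetB x z m (m + 1)) ↔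
      XCi n m inc := by
  rw [xci_iff_cov]
  have hN : (commutator H).Normal := inferInstance
  constructor
  · rintro ⟨l, hl, hprod⟩
    unfold itemsB at hl
    rw [List.sublist_append_iff] at hl
    obtain ⟨l₁, l₂₃, rfl, h1, h23⟩ := hl
    rw [List.sublist_append_iff] at h23
    obtain ⟨l₂, l₃, rfl, h2, h3⟩ := h23
    rw [List.sublist_map_iff] at h3
    obtain ⟨I, hI, rfl⟩ := h3
    refine ⟨I, hI, ?_⟩
    set L := m + 1 with hL
    have e1 := cl_list_zero (l := l₁) fun g hg => rep_mem hz (h1.subset hg)
    obtain ⟨e2, f, e3, e4⟩ := clean_prop (l := l₂) hz fun g hg => h2.subset hg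
    have e5 : (I.map (setB x z m L inc)).prod =
        pB x z (poss m L inc I 0) * x ^ tot m inc I := by
      have := pow_mul_prod_setB (x := x) (z := z) m L inc I 0
      simpa using this
    have e6 := cl_pB (x := x) hz (poss m L inc I 0)
    have e7 := cl_pB (x := x) hz ((List.range m).map (· * L))
    rw [List.prod_append, List.prod_append, e5] at hprod
    unfold targetB at hprod
    have htot : tot m inc I = m := by
      have h4 : x ^ tot m inc I * (x ^ m)⁻¹ ∈ commutator H := by
        have : x ^ tot m inc I * (x ^ m)⁻¹ =
            (l₁.prod * (l₂.prod * pB x z (poss m L inc I 0)))⁻¹ *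
              pB x z ((List.range m).map (· * L)) := by
          rw [eq_inv_mul_iff_mul_eq, ← mul_assoc, mul_inv_eq_iff_eq_mul, ← hprod]
          simp only [mul_assoc]
        rw [this]
        exact mul_mem (inv_mem (mul_mem e1.1 (mul_mem e2 e6.1))) e7.1
      rcases lt_trichotomy (tot m inc I) m with h | h | h
      · exfalso
        apply pow_notMem hp hB (k := m - tot m inc I) (by omega)
        have h5 := inv_mem h4
        rw [mul_inv_rev, inv_inv] at h5
        have h6 : x ^ m = x ^ (m - tot m inc I) * x ^ tot m inc I := by
          rw [← pow_add]; congr 1; omega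
        rwa [h6, mul_inv_cancel_right] at h5
      · exact h
      · exfalso
        apply pow_notMem hp hB (k := tot m inc I - m) (by omega)
        have h6 : x ^ tot m inc I = x ^ (tot m inc I - m) * x ^ m := by
          rw [← pow_add]; congr 1; omega
        rwa [h6, mul_inv_cancel_right] at h4
    rw [htot, ← mul_assoc, ← mul_assoc] at hprod
    have hprod' := mul_right_cancel hprod
    have h4 := congrArg cl hprod'
    rw [mul_assoc, cl_mul e1.1 (mul_mem e2 e6.1), cl_mul e2 e6.1, e1.2, zero_add, e3, e6.2,
      e7.2] at h4
    have h0L : 0 + tot m inc I < L := by omega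
    have hlt : ∀ q ∈ (List.range m).map (· * L), q < m * L := by
      intro q hq
      obtain ⟨j, hj, rfl⟩ := List.mem_map.1 hq
      exact (Nat.mul_lt_mul_right (by omega)).2 (List.mem_range.1 hj)
    rw [lc_count (poss_lt inc I 0 h0L), lc_count hlt] at h4
    have h5 : lc x z (m * L) (fun q => (f q + ((poss m L inc I 0).count q : ℤ)) -
        (((List.range m).map (· * L)).count q : ℤ)) = 0 := by
      rw [lc_sub, lc_add, h4, sub_self]
    have h6 := hB _ _ h5
    have h7 : ∀ j < m, (p : ℤ) ∣ (cov inc I j : ℤ) - 1 := by
      intro j hj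
      have h8 : (p : ℤ) ∣ blk L (fun q => (f q + ((poss m L inc I 0).count q : ℤ)) -
          (((List.range m).map (· * L)).count q : ℤ)) j := by
        refine Finset.dvd_sum fun σ hσ => h6 _ ?_
        have := Finset.mem_range.1 hσ
        calc j * L + σ < j * L + L := by omega
          _ = (j + 1) * L := by ring
          _ ≤ m * L := Nat.mul_le_mul_right _ hj
      rw [blk_sub, blk_add, e4 j hj, blk_poss inc j hj I 0 h0L] at h8
      have h9 : blk L (fun q => ((((List.range m).map (· * L)).count q : ℕ) : ℤ)) j = 1 := by
        have := blk_row (L := L) (e := 0) (by omega) m (fun _ _ => true) 0 j hj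
        simpa [row] using this
      rw [h9, zero_add] at h8
      exact h8
    have h8 : ∀ j < m, 1 ≤ cov inc I j := by
      intro j hj
      by_contra hlt'
      have h9 : cov inc I j = 0 := by omega
      have h10 := h7 j hj
      rw [h9] at h10
      have h11 : (p : ℤ) ∣ 1 := by
        have := (dvd_neg (a := (p : ℤ)) (b := (1 : ℤ))).1 (by simpa using h10)
        exact this
      have := Int.eq_one_of_dvd_one (by positivity) h11
      exact hp.one_lt.ne' (by exact_mod_cast this)
    intro j hj
    by_contra hne
    have h9 := h8 j hj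
    have h10 : ∑ j ∈ Finset.range m, 1 < ∑ j ∈ Finset.range m, cov inc I j :=
      Finset.sum_lt_sum (fun j hj => h8 j (Finset.mem_range.1 hj))
        ⟨j, Finset.mem_range.2 hj, by omega⟩
    rw [← tot_eq, htot] at h10
    simp at h10
  · rintro ⟨I, hI, hcov⟩
    set L := m + 1 with hL
    have htot : tot m inc I = m := by
      rw [tot_eq, Finset.sum_congr rfl fun j hj => hcov j (Finset.mem_range.1 hj)]
      simp
    obtain ⟨σ, hσ, hposs⟩ := exists_shift (L := L) inc I 0 (fun j hj => (hcov j hj).le) (by omega)
    have hperm := perm_of_cov hcov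
    have hlt : ∀ q ∈ (List.range m).map (· * L), q < m * L := by
      intro q hq
      obtain ⟨j, hj, rfl⟩ := List.mem_map.1 hq
      exact (Nat.mul_lt_mul_right (by omega)).2 (List.mem_range.1 hj)
    have hbnd : ∀ j < m, j * L + σ j < m * L := by
      intro j hj
      have := hσ j
      calc j * L + σ j < j * L + L := by omega
        _ = (j + 1) * L := by ring
        _ ≤ m * L := Nat.mul_le_mul_right _ hj
    have hlt' : ∀ q ∈ poss m L inc I 0, q < m * L := poss_lt inc I 0 (by omega)
    let yw : List (ℕ × Bool) :=
      (List.range m).flatMap fun j => [(j * L + σ j, false), (j * L, true)]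
    let l₂ : List H := (List.range m).map fun j => (bb x z (j * L + σ j))⁻¹ * bb x z (j * L)
    have hyw : l₂.prod = wv (bt x z (m * L)) yw := by
      have : ∀ (l : List ℕ), (∀ j ∈ l, j < m) →
          (l.map fun j => (bb x z (j * L + σ j))⁻¹ * bb x z (j * L)).prod =
            wv (bt x z (m * L)) (l.flatMap fun j => [(j * L + σ j, false), (j * L, true)]) := by
        intro l hl
        induction l with
        | nil => simp [wv]
        | cons a l ih =>
          rw [List.map_cons, List.prod_cons, ih fun j hj => hl j (List.mem_cons_of_mem _ hj),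
            List.flatMap_cons, wv_append]
          congr 1
          have h1 := hbnd a (hl a List.mem_cons_self)
          have h2 : a * L < m * L := by omega
          simp [wv, lv, bt, h1, h2]
      exact this _ fun j hj => List.mem_range.1 hj
    obtain ⟨l₁, h1, h2⟩ := exists_rep (x := x) (Q := m * L) (n := 4 * m) hz hc hc1
      (((List.range m).map (· * L)).map fun q => (q, true))
      (yw ++ (poss m L inc I 0).map fun q => (q, true))
      (by
        have h3 : yw.length = 2 * m := by
          simp [yw, List.length_flatMap]; ring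
        have h4 : (poss m L inc I 0).length = m := by
          rw [hposs, List.length_map, hperm.length_eq, List.length_range]
        simp only [List.length_map, List.length_range, List.length_append, h3, h4]
        omega)
      (by
        intro i
        rw [List.count_append, List.count_append, (count_map_true _ i).1, (count_map_true _ i).2,
          (count_map_true _ i).1, (count_map_true _ i).2, (count_pairs _ _ _ i).1,
          (count_pairs _ _ _ i).2, hposs]
        have := (hperm.map (fun j => j * L + σ j)).count_eq i
        rw [this]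
        ring)
    refine ⟨l₁ ++ (l₂ ++ I.map (setB x z m L inc)), ?_, ?_⟩
    · refine h1.append (List.Sublist.append ?_ (hI.map _))
      have : ∀ l : List ℕ, (l.map fun j => (bb x z (j * L + σ j))⁻¹ * bb x z (j * L)).Sublist
          (l.flatMap fun j => (List.range L).map fun σ =>
            (bb x z (j * L + σ))⁻¹ * bb x z (j * L)) := by
        intro l
        induction l with
        | nil => exact List.Sublist.refl _
        | cons a l ih =>
          rw [List.map_cons, List.flatMap_cons]
          refine (List.singleton_sublist.2 ?_).append ih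
          exact List.mem_map.2 ⟨σ a, List.mem_range.2 (hσ a), rfl⟩
      exact this _
    · have h3 : (I.map (setB x z m L inc)).prod = pB x z (poss m L inc I 0) * x ^ m := by
        have := pow_mul_prod_setB (x := x) (z := z) m L inc I 0
        rw [htot] at this
        simpa using this
      rw [List.prod_append, List.prod_append, h2, h3, hyw, wv_append, ← pB_eq_wv hlt',
        ← pB_eq_wv hlt]
      unfold targetB
      group

end Pool.Agent.Helper86.SSP
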